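import Mathlib

set_option autoImplicit false

open MeasureTheory Metric Set

namespace Pool.Agent.H32MB

/-- Averaging over balls whose radius varies slowly. -/
theorem averaging {Φ : ℂ → ENNReal} (hΦ : Measurable Φ) {ρ : ℂ → ℝ} (hρ : Measurable ρ)
    {S T : Set ℂ} (hS : MeasurableSet S) (hT : MeasurableSet T)
    (hpos : ∀ c ∈ S, 0 < ρ c)
    (hcmp : ∀ c' ∈ S, ∀ c, dist c c' < ρ c' / 2 → c ∈ T ∧ ρ c' / 2 ≤ ρ c ∧ ρ c ≤ 2 * ρ c') :
    ∫⁻ c in S, Φ c ≤
      6 * ∫⁻ c in T, ENNReal.ofReal ((ρ c ^ 2)⁻¹) * ∫⁻ c' in ball c (ρ c) ∩ S, Φ c' := by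
  classical
  set G : ℂ → ℂ → ENNReal := fun c c' =>
    ENNReal.ofReal ((ρ c ^ 2)⁻¹) * (if dist c' c < ρ c then Φ c' else 0) with hG
  have hms : MeasurableSet {q : ℂ × ℂ | dist q.2 q.1 < ρ q.1} :=
    measurableSet_lt (measurable_snd.dist measurable_fst) (hρ.comp measurable_fst)
  have hGm : Measurable (Function.uncurry G) := by
    apply Measurable.mul
    · exact ENNReal.measurable_ofReal.comp (((hρ.comp measurable_fst).pow_const 2).inv)
    · exact Measurable.ite hms (hΦ.comp measurable_snd) measurable_const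
  have h1 : ∀ c, ENNReal.ofReal ((ρ c ^ 2)⁻¹) * ∫⁻ c' in ball c (ρ c) ∩ S, Φ c' =
      ∫⁻ c' in S, G c c' := by
    intro c
    rw [hG]
    simp only
    rw [lintegral_const_mul]
    · congr 1
      rw [← Measure.restrict_restrict measurableSet_ball, ← lintegral_indicator measurableSet_ball]
      apply lintegral_congr
      intro c'
      simp only [indicator, mem_ball]
    · exact Measurable.ite (measurableSet_lt (measurable_id.dist measurable_const) measurable_const)
        hΦ measurable_const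
  simp only [h1]
  rw [lintegral_lintegral_swap hGm.aemeasurable,
    ← lintegral_const_mul _ (Measurable.lintegral_prod_left hGm)]
  apply setLIntegral_mono (measurable_const.mul (Measurable.lintegral_prod_left hGm))
  intro c' hc'
  have hp := hpos c' hc'
  have h2 : ∫⁻ c in T, G c c' ≥ ∫⁻ _ in ball c' (ρ c' / 2),
      ENNReal.ofReal ((4 * ρ c' ^ 2)⁻¹) * Φ c' := by
    have hsub : ball c' (ρ c' / 2) ⊆ T := fun c hc => (hcmp c' hc' c hc).1
    refine le_trans ?_ (lintegral_mono_set hsub)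
    apply setLIntegral_mono' measurableSet_ball
    intro c hc
    obtain ⟨-, h3, h4⟩ := hcmp c' hc' c hc
    have hc2 : dist c c' < ρ c' / 2 := hc
    simp only [hG]
    rw [if_pos (by rw [dist_comm]; linarith)]
    gcongr
    · have : 0 < ρ c := by linarith
      positivity
    · nlinarith
  refine le_trans ?_ (mul_le_mul_right h2 6)
  rw [setLIntegral_const, Complex.volume_ball]
  have h5 : (6 : ENNReal) * (ENNReal.ofReal ((4 * ρ c' ^ 2)⁻¹) * Φ c' *
      (ENNReal.ofReal (ρ c' / 2) ^ 2 * NNReal.pi)) =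
      ENNReal.ofReal (6 * ((4 * ρ c' ^ 2)⁻¹ * ((ρ c' / 2) ^ 2 * Real.pi))) * Φ c' := by
    rw [ENNReal.ofReal_mul (by norm_num), ENNReal.ofReal_mul (by positivity),
      ENNReal.ofReal_mul (by positivity), ENNReal.ofReal_pow (by positivity)]
    have : ENNReal.ofReal Real.pi = (NNReal.pi : ENNReal) := by
      rw [← NNReal.coe_real_pi, ENNReal.ofReal_coe_nnreal]
    rw [this]
    simp only [ENNReal.ofReal_ofNat]
    ring
  rw [h5]
  have h6 : 6 * ((4 * ρ c' ^ 2)⁻¹ * ((ρ c' / 2) ^ 2 * Real.pi)) = 6 / 16 * Real.pi := by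
    field_simp
    ring
  rw [h6]
  have h7 : (1 : ENNReal) ≤ ENNReal.ofReal (6 / 16 * Real.pi) := by
    rw [ENNReal.one_le_ofReal]
    have := Real.pi_gt_three
    linarith
  calc Φ c' = 1 * Φ c' := (one_mul _).symm
    _ ≤ _ := by gcongr

end Pool.Agent.H32MB
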