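import Mathlib

set_option autoImplicit false

open MeasureTheory Metric Set

namespace Pool.Agent.H32MB

theorem lintegral_inv_norm {R : ℝ} (hR : 0 ≤ R) :
    ∫⁻ c in ball (0 : ℂ) R, ENNReal.ofReal (‖c‖⁻¹) ≤ ENNReal.ofReal (2 * Real.pi * R) := by
  rw [← lintegral_indicator measurableSet_ball, ← Complex.lintegral_comp_polarCoord_symm]
  have hsub : ∀ p ∈ polarCoord.target, ENNReal.ofReal p.1 • (ball (0 : ℂ) R).indicator
      (fun c : ℂ => ENNReal.ofReal (‖c‖⁻¹)) (Complex.polarCoord.symm p) ≤
      (Iio R ×ˢ univ : Set (ℝ × ℝ)).indicator (fun _ => (1 : ENNReal)) p := by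
    intro p hp
    have hp1 : 0 < p.1 := hp.1
    have hn : ‖Complex.polarCoord.symm p‖ = p.1 := by
      rw [Complex.norm_polarCoord_symm, abs_of_pos hp1]
    by_cases h : p.1 < R
    · rw [indicator_of_mem (by rw [mem_ball_zero_iff, hn]; exact h),
        indicator_of_mem (by exact ⟨h, trivial⟩), hn, smul_eq_mul, ← ENNReal.ofReal_mul hp1.le,
        mul_inv_cancel₀ hp1.ne', ENNReal.ofReal_one]
    · rw [indicator_of_notMem (by rw [mem_ball_zero_iff, hn]; exact h)]
      simp
  have hms : MeasurableSet (Iio R ×ˢ univ : Set (ℝ × ℝ)) := measurableSet_Iio.prod MeasurableSet.univ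
  refine (setLIntegral_mono' polarCoord.open_target.measurableSet hsub).trans ?_
  rw [lintegral_indicator hms, setLIntegral_one, Measure.restrict_apply hms, polarCoord_target,
    prod_inter_prod, univ_inter, Measure.volume_eq_prod, Measure.prod_prod]
  have h1 : Iio R ∩ Ioi (0 : ℝ) = Ioo 0 R := by
    ext x; simp [and_comm]
  rw [h1, Real.volume_Ioo, Real.volume_Ioo, ← ENNReal.ofReal_mul (by linarith)]
  apply ENNReal.ofReal_le_ofReal
  linarith [mul_comm (R - 0) (Real.pi - -Real.pi)]

theorem lintegral_inv_dist (c0 ζ : ℂ) {R : ℝ} (hR : 0 < R) :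
    ∫⁻ c in ball c0 R, ENNReal.ofReal (‖c - ζ‖⁻¹) ≤ ENNReal.ofReal (3 * Real.pi * R) := by
  have h1 : ∫⁻ c in ball ζ R, ENNReal.ofReal (‖c - ζ‖⁻¹) ≤ ENNReal.ofReal (2 * Real.pi * R) := by
    refine le_trans (le_of_eq ?_) (lintegral_inv_norm hR.le)
    rw [← lintegral_indicator measurableSet_ball, ← lintegral_indicator measurableSet_ball]
    refine Eq.trans ?_ (lintegral_sub_right_eq_self
      (fun c => (ball (0 : ℂ) R).indicator (fun c => ENNReal.ofReal ‖c‖⁻¹) c) ζ)
    apply lintegral_congr
    intro c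
    by_cases h : c ∈ ball ζ R
    · rw [indicator_of_mem h, indicator_of_mem]
      rw [mem_ball_zero_iff, ← dist_eq_norm]
      exact h
    · rw [indicator_of_notMem h, indicator_of_notMem]
      rw [mem_ball_zero_iff, ← dist_eq_norm]
      exact h
  have h2 : ∫⁻ c in ball c0 R \ ball ζ R, ENNReal.ofReal (‖c - ζ‖⁻¹) ≤
      ENNReal.ofReal (Real.pi * R) := by
    have h3 : ∫⁻ c in ball c0 R \ ball ζ R, ENNReal.ofReal (‖c - ζ‖⁻¹) ≤
        ∫⁻ _ in ball c0 R \ ball ζ R, ENNReal.ofReal (R⁻¹) := by
      apply setLIntegral_mono' (measurableSet_ball.diff measurableSet_ball)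
      intro c hc
      apply ENNReal.ofReal_le_ofReal
      have h4 : R ≤ ‖c - ζ‖ := by
        have := hc.2
        rw [mem_ball, dist_eq_norm, not_lt] at this
        exact this
      exact inv_anti₀ hR h4
    refine h3.trans ?_
    rw [setLIntegral_const]
    calc ENNReal.ofReal R⁻¹ * volume (ball c0 R \ ball ζ R)
        ≤ ENNReal.ofReal R⁻¹ * volume (ball c0 R) := by gcongr; exact sdiff_subset
      _ = ENNReal.ofReal (Real.pi * R) := by
        rw [Complex.volume_ball]
        have : (NNReal.pi : ENNReal) = ENNReal.ofReal Real.pi := by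
          rw [← NNReal.coe_real_pi, ENNReal.ofReal_coe_nnreal]
        rw [this, ← ENNReal.ofReal_pow hR.le, ← ENNReal.ofReal_mul (by positivity),
          ← ENNReal.ofReal_mul (by positivity)]
        congr 1
        field_simp
  have h5 : ball c0 R ⊆ ball ζ R ∪ (ball c0 R \ ball ζ R) := by
    intro c hc
    by_cases h : c ∈ ball ζ R
    · exact Or.inl h
    · exact Or.inr ⟨hc, h⟩
  refine (lintegral_mono_set h5).trans ((lintegral_union_le _ _ _).trans ?_)
  refine (add_le_add h1 h2).trans (le_of_eq ?_)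
  rw [← ENNReal.ofReal_add (by positivity) (by positivity)]
  congr 1
  ring

/-- Arcs of circles in discs are short. -/
theorem arc_bound {t u σ : ℝ} (ht : 0 < t) (hu : 0 ≤ u) (hσ : 0 < σ) :
    ENNReal.ofReal t * volume {θ : ℝ | θ ∈ Ioo (-Real.pi) Real.pi ∧
      ‖(t : ℂ) * (Real.cos θ + Real.sin θ * Complex.I) - u‖ < σ} ≤ ENNReal.ofReal (4 * Real.pi * σ) := by
  have hpi := Real.pi_pos
  by_cases hcase : u ≤ σ
  · by_cases h2 : t < 2 * σ
    · have h3 : {θ : ℝ | θ ∈ Ioo (-Real.pi) Real.pi ∧
        ‖(t : ℂ) * (Real.cos θ + Real.sin θ * Complex.I) - u‖ < σ} ⊆ Ioo (-Real.pi) Real.pi :=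
        fun θ hθ => hθ.1
      calc _ ≤ ENNReal.ofReal t * volume (Ioo (-Real.pi) Real.pi) := by gcongr
        _ = ENNReal.ofReal (t * (2 * Real.pi)) := by
          rw [Real.volume_Ioo, ← ENNReal.ofReal_mul ht.le]; congr 2; ring
        _ ≤ _ := by
          apply ENNReal.ofReal_le_ofReal; nlinarith
    · have h3 : {θ : ℝ | θ ∈ Ioo (-Real.pi) Real.pi ∧
        ‖(t : ℂ) * (Real.cos θ + Real.sin θ * Complex.I) - u‖ < σ} = ∅ := by
        ext θ
        simp only [mem_ofPred_eq, mem_empty_iff_false, iff_false, not_and, not_lt]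
        intro _
        have h4 : ‖(t : ℂ) * (Real.cos θ + Real.sin θ * Complex.I)‖ = t := by
          have := Complex.norm_polarCoord_symm (t, θ)
          rw [Complex.polarCoord_symm_apply] at this
          simp only at this
          rw [this, abs_of_pos ht]
        have h5 := norm_sub_norm_le ((t : ℂ) * (Real.cos θ + Real.sin θ * Complex.I)) (u : ℂ)
        rw [h4, Complex.norm_real, Real.norm_eq_abs, abs_of_nonneg hu] at h5
        linarith
      rw [h3, measure_empty, mul_zero]
      exact zero_le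
  · push Not at hcase
    have h3 : {θ : ℝ | θ ∈ Ioo (-Real.pi) Real.pi ∧
        ‖(t : ℂ) * (Real.cos θ + Real.sin θ * Complex.I) - u‖ < σ} ⊆
        Icc (-(Real.pi / 2 * (σ / t))) (Real.pi / 2 * (σ / t)) := by
      rintro θ ⟨hθ, hd⟩
      have hre : |t * Real.cos θ - u| < σ := by
        have h6 := Complex.abs_re_le_norm ((t : ℂ) * (Real.cos θ + Real.sin θ * Complex.I) - u)
        simp only [Complex.sub_re, Complex.mul_re, Complex.add_re, Complex.ofReal_re,
          Complex.ofReal_im, Complex.I_re, Complex.mul_im, Complex.I_im, zero_mul, mul_zero,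
          sub_zero, add_zero, Complex.add_im, mul_one] at h6
        exact h6.trans_lt hd
      have him : |t * Real.sin θ| < σ := by
        have h6 := Complex.abs_im_le_norm ((t : ℂ) * (Real.cos θ + Real.sin θ * Complex.I) - u)
        simp only [Complex.sub_im, Complex.mul_im, Complex.add_re, Complex.ofReal_re,
          Complex.ofReal_im, Complex.I_re, Complex.mul_re, Complex.I_im, zero_mul, mul_zero,
          sub_zero, add_zero, Complex.add_im, mul_one, zero_add] at h6
        exact h6.trans_lt hd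
      have hcos : 0 < Real.cos θ := by
        rw [abs_lt] at hre
        have : 0 < t * Real.cos θ := by linarith [hre.1]
        exact pos_of_mul_pos_right this ht.le
      have hθ2 : |θ| < Real.pi / 2 := by
        by_contra hcon
        push Not at hcon
        have h7 : Real.cos |θ| ≤ 0 := by
          apply Real.cos_nonpos_of_pi_div_two_le_of_le hcon
          have := abs_lt.mpr hθ
          linarith
        rw [Real.cos_abs] at h7
        linarith
      have h8 : 2 / Real.pi * |θ| ≤ Real.sin |θ| := Real.mul_le_sin (abs_nonneg _) hθ2.le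
      have h9 : Real.sin |θ| = |Real.sin θ| := by
        rcases le_total 0 θ with h | h
        · rw [abs_of_nonneg h] at hθ2 ⊢
          rw [abs_of_nonneg (Real.sin_nonneg_of_nonneg_of_le_pi h (by linarith))]
        · rw [abs_of_nonpos h] at hθ2 ⊢
          rw [Real.sin_neg, abs_of_nonpos]
          have := Real.sin_nonneg_of_nonneg_of_le_pi (x := -θ) (by linarith) (by linarith)
          rw [Real.sin_neg] at this
          linarith
      rw [abs_mul, abs_of_pos ht] at him
      have h10 : |θ| ≤ Real.pi / 2 * (σ / t) := by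
        have h11 : |Real.sin θ| < σ / t := by
          rw [lt_div_iff₀ ht]; linarith [mul_comm t |Real.sin θ|]
        rw [h9] at h8
        have h12 : 2 / Real.pi * |θ| ≤ σ / t := h8.trans h11.le
        calc |θ| = Real.pi / 2 * (2 / Real.pi * |θ|) := by field_simp
          _ ≤ _ := by gcongr
      exact abs_le.mp h10
    calc _ ≤ ENNReal.ofReal t * volume (Icc (-(Real.pi / 2 * (σ / t))) (Real.pi / 2 * (σ / t))) := by
          gcongr
      _ = ENNReal.ofReal (Real.pi * σ) := by
        rw [Real.volume_Icc, ← ENNReal.ofReal_mul ht.le]; congr 1; field_simp; ring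
      _ ≤ _ := by
        apply ENNReal.ofReal_le_ofReal; nlinarith [mul_pos hpi hσ]

/-- Integrals of radial functions over discs. -/
theorem ring_bound {g : ℝ → ENNReal} (hg : Measurable g) (w0 : ℂ) {σ : ℝ} (hσ : 0 < σ) :
    ∫⁻ w in ball w0 σ, g ‖w‖ ≤ ENNReal.ofReal (4 * Real.pi * σ) * ∫⁻ t in Ioi (0 : ℝ), g t := by
  -- rotation to a real centre
  obtain ⟨a, ha⟩ : ∃ a : Circle, (a : ℂ) * (‖w0‖ : ℂ) = w0 := by
    refine ⟨Circle.exp (Complex.arg w0), ?_⟩
    rw [Circle.coe_exp, mul_comm]
    exact Complex.norm_mul_exp_arg_mul_I w0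
  have hmp : MeasurePreserving (fun w : ℂ => (a : ℂ) * w) volume volume :=
    (rotation a).measurePreserving
  have hme : MeasurableEmbedding (fun w : ℂ => (a : ℂ) * w) :=
    (rotation a).toHomeomorph.measurableEmbedding
  have h1 : ∫⁻ w in ball w0 σ, g ‖w‖ = ∫⁻ w in ball (‖w0‖ : ℂ) σ, g ‖w‖ := by
    rw [← lintegral_indicator measurableSet_ball, ← lintegral_indicator measurableSet_ball,
      ← hmp.lintegral_comp_emb hme]
    apply lintegral_congr
    intro w
    have h2 : dist ((a : ℂ) * w) w0 = dist w (‖w0‖ : ℂ) := by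
      rw [dist_eq_norm, dist_eq_norm]
      conv_lhs => rw [← ha, ← mul_sub, norm_mul, Circle.norm_coe, one_mul]
    have h3 : ‖(a : ℂ) * w‖ = ‖w‖ := by rw [norm_mul, Circle.norm_coe, one_mul]
    simp only [indicator, mem_ball, h2, h3]
  rw [h1, ← lintegral_indicator measurableSet_ball, ← Complex.lintegral_comp_polarCoord_symm,
    polarCoord_target, Measure.volume_eq_prod]
  set u : ℝ := ‖w0‖ with hu
  have hu0 : 0 ≤ u := norm_nonneg _
  have hmb : Measurable (fun w : ℂ => (ball (u : ℂ) σ).indicator (fun w : ℂ => g ‖w‖) w) :=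
    (hg.comp measurable_norm).indicator measurableSet_ball
  have hms : Measurable (fun p : ℝ × ℝ => Complex.polarCoord.symm p) := by
    simp only [Complex.polarCoord_symm_apply]
    fun_prop
  have hm : Measurable (fun p : ℝ × ℝ => ENNReal.ofReal p.1 •
      (ball (u : ℂ) σ).indicator (fun w : ℂ => g ‖w‖) (Complex.polarCoord.symm p)) :=
    (ENNReal.measurable_ofReal.comp measurable_fst).smul (hmb.comp hms)
  rw [← Measure.prod_restrict, lintegral_prod _ hm.aemeasurable,
    ← lintegral_const_mul _ hg]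
  apply setLIntegral_mono (measurable_const.mul hg)
  intro t ht
  have ht0 : 0 < t := ht
  have h4 : ∀ θ : ℝ, ENNReal.ofReal (t, θ).1 • (ball (u : ℂ) σ).indicator (fun w : ℂ => g ‖w‖)
      (Complex.polarCoord.symm (t, θ)) = {θ : ℝ | ‖(t : ℂ) * (Real.cos θ + Real.sin θ * Complex.I) - u‖ < σ}.indicator
        (fun _ => ENNReal.ofReal t * g t) θ := by
    intro θ
    have h5 : ‖Complex.polarCoord.symm (t, θ)‖ = t := by
      rw [Complex.norm_polarCoord_symm, abs_of_pos ht0]
    have h6 : Complex.polarCoord.symm (t, θ) = (t : ℂ) * (Real.cos θ + Real.sin θ * Complex.I) := by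
      rw [Complex.polarCoord_symm_apply]
    by_cases h : ‖(t : ℂ) * (Real.cos θ + Real.sin θ * Complex.I) - u‖ < σ
    · rw [indicator_of_mem (by rw [mem_ball, dist_eq_norm, h6]; exact h),
        indicator_of_mem (by exact h), h5, smul_eq_mul]
    · rw [indicator_of_notMem (by rw [mem_ball, dist_eq_norm, h6]; exact h),
        indicator_of_notMem (by exact h), smul_zero]
  simp only [h4]
  have hmset : MeasurableSet {θ : ℝ | ‖(t : ℂ) * (Real.cos θ + Real.sin θ * Complex.I) - u‖ < σ} := by
    apply measurableSet_lt _ measurable_const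
    fun_prop
  rw [lintegral_indicator hmset, setLIntegral_const, Measure.restrict_apply hmset]
  have h7 : {θ : ℝ | ‖(t : ℂ) * (Real.cos θ + Real.sin θ * Complex.I) - u‖ < σ} ∩
      Ioo (-Real.pi) Real.pi = {θ : ℝ | θ ∈ Ioo (-Real.pi) Real.pi ∧
      ‖(t : ℂ) * (Real.cos θ + Real.sin θ * Complex.I) - u‖ < σ} := by
    ext θ; simp only [mem_inter_iff, mem_ofPred_eq]; tauto
  rw [h7, mul_right_comm]
  exact mul_le_mul_left (arc_bound ht0 hu0 hσ) (g t)

end Pool.Agent.H32MB
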