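import Mathlib
import Pool.Agent.H32MB.Ring

set_option autoImplicit false

open MeasureTheory Metric Set

namespace Pool.Agent.H32MB

theorem ring_log {d : ℕ} (hd : 8 ≤ d) (w0 : ℂ) {σ : ℝ} (hσ : 0 < σ) :
    ∫⁻ w in ball w0 σ ∩ {w : ℂ | ‖w‖ ≤ 1 + 6 / d}, ENNReal.ofReal ((1 / d + max 0 (1 - ‖w‖))⁻¹) ≤
      ENNReal.ofReal (4 * Real.pi * σ * (5 * Real.log d)) := by
  have hdR : (8 : ℝ) ≤ d := by exact_mod_cast hd
  have hd0 : (0 : ℝ) < d := by linarith
  set g : ℝ → ENNReal := fun t => if t ≤ 1 + 6 / d then ENNReal.ofReal ((1 / d + max 0 (1 - t))⁻¹) else 0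
    with hg
  have hgm : Measurable g := by
    apply Measurable.ite measurableSet_Iic _ measurable_const
    apply ENNReal.measurable_ofReal.comp
    fun_prop
  have hms : MeasurableSet {w : ℂ | ‖w‖ ≤ 1 + 6 / d} := measurableSet_le measurable_norm measurable_const
  have h1 : ∫⁻ w in ball w0 σ ∩ {w : ℂ | ‖w‖ ≤ 1 + 6 / d}, ENNReal.ofReal ((1 / d + max 0 (1 - ‖w‖))⁻¹) ≤
      ∫⁻ w in ball w0 σ, g ‖w‖ := by
    rw [inter_comm, ← Measure.restrict_restrict hms, ← lintegral_indicator hms]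
    apply lintegral_mono
    intro w
    by_cases h : ‖w‖ ≤ 1 + 6 / d
    · rw [indicator_of_mem (by exact h)]
      simp only [hg]
      rw [if_pos h]
    · rw [indicator_of_notMem (by exact h)]
      exact zero_le
  refine h1.trans ((ring_bound hgm w0 hσ).trans ?_)
  have h2 : ∫⁻ t in Ioi (0 : ℝ), g t ≤ ENNReal.ofReal (5 * Real.log d) := by
    have hsplit : Ioi (0 : ℝ) = Ioc 0 1 ∪ Ioi 1 := (Ioc_union_Ioi_eq_Ioi zero_le_one).symm
    rw [hsplit]
    refine (lintegral_union_le _ _ _).trans ?_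
    have h3 : ∫⁻ t in Ioc (0 : ℝ) 1, g t ≤ ENNReal.ofReal (Real.log (d + 1)) := by
      have h4 : ∫⁻ t in Ioc (0 : ℝ) 1, g t ≤ ∫⁻ t in Ioc (0 : ℝ) 1, ENNReal.ofReal ((1 / d + (1 - t))⁻¹) := by
        apply setLIntegral_mono' measurableSet_Ioc
        intro t ht
        simp only [hg]
        split_ifs with h
        · rw [max_eq_right (by linarith [ht.2])]
        · exact zero_le
      refine h4.trans (le_of_eq ?_)
      have hpos : ∀ t ∈ uIcc (0 : ℝ) 1, 0 < 1 / (d : ℝ) + (1 - t) := by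
        intro t ht
        rw [uIcc_of_le zero_le_one] at ht
        have : 0 < 1 / (d : ℝ) := by positivity
        linarith [ht.2]
      have hcont : ContinuousOn (fun t : ℝ => (1 / (d : ℝ) + (1 - t))⁻¹) (uIcc 0 1) := by
        apply ContinuousOn.inv₀ (by fun_prop)
        intro t ht; exact (hpos t ht).ne'
      have h5 : ∫ t in (0 : ℝ)..1, (1 / (d : ℝ) + (1 - t))⁻¹ = Real.log (d + 1) := by
        rw [intervalIntegral.integral_eq_sub_of_hasDerivAt
          (f := fun t : ℝ => - Real.log (1 / (d : ℝ) + (1 - t))) _ hcont.intervalIntegrable]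
        · have h6 : Real.log (1 / (d : ℝ) + (1 - 0)) - Real.log (1 / (d : ℝ) + (1 - 1)) =
              Real.log (d + 1) := by
            rw [← Real.log_div (by positivity) (by simp; positivity)]
            congr 1
            field_simp
            ring
          linarith
        · intro t ht
          have h7 : HasDerivAt (fun t : ℝ => 1 / (d : ℝ) + (1 - t)) (-1) t := by
            have := ((hasDerivAt_id t).const_sub 1).const_add (1 / (d : ℝ))
            simpa using this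
          have h8 : HasDerivAt (fun t : ℝ => - Real.log (1 / (d : ℝ) + (1 - t)))
              (-(-1 / (1 / (d : ℝ) + (1 - t)))) t := (h7.log (hpos t ht).ne').neg
          have h8' : -(-1 / (1 / (d : ℝ) + (1 - t))) = (1 / (d : ℝ) + (1 - t))⁻¹ := by
            rw [neg_div, neg_neg, one_div]
          rw [h8'] at h8
          exact h8
      rw [← h5, intervalIntegral.integral_of_le zero_le_one,
        ofReal_integral_eq_lintegral_ofReal]
      · have hii : IntervalIntegrable (fun t : ℝ => (1 / (d : ℝ) + (1 - t))⁻¹) volume 0 1 :=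
          hcont.intervalIntegrable
        rwa [intervalIntegrable_iff_integrableOn_Ioc_of_le zero_le_one] at hii
      · rw [Filter.EventuallyLE, ae_restrict_iff' measurableSet_Ioc]
        refine Filter.Eventually.of_forall fun t ht => ?_
        have := hpos t (by rw [uIcc_of_le zero_le_one]; exact Ioc_subset_Icc_self ht)
        simp only [Pi.zero_apply]
        positivity
    have h9 : ∫⁻ t in Ioi (1 : ℝ), g t ≤ ENNReal.ofReal 6 := by
      have h10 : ∫⁻ t in Ioi (1 : ℝ), g t ≤ ∫⁻ t, (Ioc (1 : ℝ) (1 + 6 / d)).indicator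
          (fun _ => ENNReal.ofReal d) t := by
        rw [← lintegral_indicator measurableSet_Ioi]
        apply lintegral_mono
        intro t
        by_cases h : t ∈ Ioc (1 : ℝ) (1 + 6 / d)
        · rw [indicator_of_mem h, indicator_of_mem (by exact h.1)]
          simp only [hg]
          rw [if_pos h.2, max_eq_left (by linarith [h.1])]
          simp
        · rw [indicator_of_notMem h]
          simp only [indicator, mem_Ioi]
          split_ifs with h2
          · simp only [hg]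
            rw [if_neg]
            intro h3; exact h ⟨h2, h3⟩
          · exact le_rfl
      refine h10.trans ?_
      rw [lintegral_indicator measurableSet_Ioc, setLIntegral_const, Real.volume_Ioc,
        ← ENNReal.ofReal_mul hd0.le]
      apply ENNReal.ofReal_le_ofReal
      rw [add_sub_cancel_left]
      field_simp
      exact le_rfl
    refine (add_le_add h3 h9).trans ?_
    have hlog : Real.log (d + 1) ≤ Real.log d + 1 / 8 := by
      have h11 : (d : ℝ) + 1 = d * (1 + 1 / d) := by field_simp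
      rw [h11, Real.log_mul (by positivity) (by positivity)]
      have h12 := Real.log_le_sub_one_of_pos (show (0 : ℝ) < 1 + 1 / d by positivity)
      have h13 : 1 / (d : ℝ) ≤ 1 / 8 := one_div_le_one_div_of_le (by norm_num) hdR
      linarith
    have hlog8 : (2 : ℝ) ≤ Real.log d := by
      have h14 : Real.log 8 ≤ Real.log d := Real.log_le_log (by norm_num) hdR
      have h15 : Real.log 8 = 3 * Real.log 2 := by
        rw [show (8 : ℝ) = 2 ^ 3 by norm_num, Real.log_pow]; norm_num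
      have := Real.log_two_gt_d9
      linarith
    rw [← ENNReal.ofReal_add (Real.log_nonneg (by linarith)) (by norm_num)]
    apply ENNReal.ofReal_le_ofReal
    linarith
  calc ENNReal.ofReal (4 * Real.pi * σ) * ∫⁻ t in Ioi (0 : ℝ), g t
      ≤ ENNReal.ofReal (4 * Real.pi * σ) * ENNReal.ofReal (5 * Real.log d) := by gcongr
    _ = _ := by rw [← ENNReal.ofReal_mul (by positivity)]

/-- The sum of the reciprocals of the distances to the points of `Z`. -/
noncomputable def S1 (Z : Multiset ℂ) (c : ℂ) : ℝ := (Z.map fun ζ => ‖c - ζ‖⁻¹).sum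

/-- The product of the `c - ζ`. -/
noncomputable def Pr (Z : Multiset ℂ) (c : ℂ) : ℂ := (Z.map fun ζ => c - ζ).prod

theorem S1_nonneg (Z : Multiset ℂ) (c : ℂ) : 0 ≤ S1 Z c := by
  unfold S1
  apply Multiset.sum_nonneg
  intro x hx
  rw [Multiset.mem_map] at hx
  obtain ⟨ζ, -, rfl⟩ := hx
  positivity

theorem inv_le_S1 {Z : Multiset ℂ} (c : ℂ) {ζ : ℂ} (hζ : ζ ∈ Z) : ‖c - ζ‖⁻¹ ≤ S1 Z c := by
  obtain ⟨W, rfl⟩ := Multiset.exists_cons_of_mem hζ
  have : S1 (ζ ::ₘ W) c = ‖c - ζ‖⁻¹ + S1 W c := by simp [S1]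
  rw [this]
  linarith [S1_nonneg W c]

theorem Pr_close (Z : Multiset ℂ) {c c' : ℂ} (h : ∀ ζ ∈ Z, c' ≠ ζ) :
    ‖Pr Z c - Pr Z c'‖ ≤ (Real.exp (‖c - c'‖ * S1 Z c') - 1) * ‖Pr Z c'‖ := by
  induction Z using Multiset.induction_on with
  | empty => simp [Pr, S1]
  | cons ζ Z ih =>
    have ih' := ih fun ζ hζ => h ζ (Multiset.mem_cons_of_mem hζ)
    have hne : c' - ζ ≠ 0 := sub_ne_zero.mpr (h ζ (Multiset.mem_cons_self ζ Z))
    have hn : 0 < ‖c' - ζ‖ := norm_pos_iff.mpr hne
    have e1 : ∀ c, Pr (ζ ::ₘ Z) c = (c - ζ) * Pr Z c := fun c => by simp [Pr]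
    have e2 : S1 (ζ ::ₘ Z) c' = ‖c' - ζ‖⁻¹ + S1 Z c' := by simp [S1]
    set u : ℝ := ‖c - c'‖ * ‖c' - ζ‖⁻¹ with hu
    have hu0 : 0 ≤ u := by positivity
    have hcζ : ‖c - ζ‖ ≤ ‖c' - ζ‖ * (1 + u) := by
      have h1 : c - ζ = (c - c') + (c' - ζ) := by ring
      have h2 : ‖c' - ζ‖ * (1 + u) = ‖c - c'‖ + ‖c' - ζ‖ := by
        rw [hu]; field_simp; ring
      rw [h1, h2]
      exact norm_add_le _ _
    set E : ℝ := Real.exp (‖c - c'‖ * S1 Z c') with hE
    have hE1 : 1 ≤ E := Real.one_le_exp (mul_nonneg (norm_nonneg _) (S1_nonneg _ _))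
    have h3 : Pr (ζ ::ₘ Z) c - Pr (ζ ::ₘ Z) c' = (c - ζ) * (Pr Z c - Pr Z c') + (c - c') * Pr Z c' := by
      rw [e1, e1]; ring
    have h4 : Real.exp (‖c - c'‖ * S1 (ζ ::ₘ Z) c') = Real.exp u * E := by
      rw [e2, mul_add, Real.exp_add]
    have h5 : 1 + u ≤ Real.exp u := by linarith [Real.add_one_le_exp u]
    rw [h3, h4, e1, norm_mul]
    calc ‖(c - ζ) * (Pr Z c - Pr Z c') + (c - c') * Pr Z c'‖
        ≤ ‖c - ζ‖ * ‖Pr Z c - Pr Z c'‖ + ‖c - c'‖ * ‖Pr Z c'‖ := by
          refine (norm_add_le _ _).trans ?_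
          rw [norm_mul, norm_mul]
      _ ≤ (‖c' - ζ‖ * (1 + u)) * ((E - 1) * ‖Pr Z c'‖) + ‖c - c'‖ * ‖Pr Z c'‖ := by
          gcongr
      _ = ((1 + u) * E - 1) * (‖c' - ζ‖ * ‖Pr Z c'‖) := by
          have : ‖c - c'‖ = u * ‖c' - ζ‖ := by rw [hu]; field_simp
          rw [this]; ring
      _ ≤ (Real.exp u * E - 1) * (‖c' - ζ‖ * ‖Pr Z c'‖) := by
          gcongr

theorem S1_compare {Z : Multiset ℂ} {c c' : ℂ} (h : ∀ ζ ∈ Z, c' ≠ ζ) {τ : ℝ} (hτ : τ < 1)
    (hc : ‖c - c'‖ * S1 Z c' ≤ τ) :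
    S1 Z c ≤ (1 - τ)⁻¹ * S1 Z c' ∧ (1 + τ)⁻¹ * S1 Z c' ≤ S1 Z c ∧ ∀ ζ ∈ Z, c ≠ ζ := by
  have hτ0 : 0 ≤ τ := (mul_nonneg (norm_nonneg _) (S1_nonneg _ _)).trans hc
  have key : ∀ ζ ∈ Z, (1 - τ) * ‖c' - ζ‖ ≤ ‖c - ζ‖ ∧ ‖c - ζ‖ ≤ (1 + τ) * ‖c' - ζ‖ := by
    intro ζ hζ
    have hn : 0 < ‖c' - ζ‖ := norm_pos_iff.mpr (sub_ne_zero.mpr (h ζ hζ))
    have h1 : ‖c - c'‖ * ‖c' - ζ‖⁻¹ ≤ τ :=
      (mul_le_mul_of_nonneg_left (inv_le_S1 c' hζ) (norm_nonneg _)).trans hc
    have h2 : ‖c - c'‖ ≤ τ * ‖c' - ζ‖ := by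
      rw [← div_eq_mul_inv, div_le_iff₀ hn] at h1
      exact h1
    constructor
    · have h3 := norm_sub_norm_le (c' - ζ) (c' - c)
      have h4 : c' - ζ - (c' - c) = c - ζ := by ring
      rw [h4, norm_sub_rev c' c] at h3
      linarith
    · have h3 := norm_add_le (c - c') (c' - ζ)
      have h4 : c - c' + (c' - ζ) = c - ζ := by ring
      rw [h4] at h3
      linarith
  refine ⟨?_, ?_, ?_⟩
  · unfold S1
    rw [← Multiset.sum_map_mul_left]
    apply Multiset.sum_map_le_sum_map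
    intro ζ hζ
    have hn : 0 < ‖c' - ζ‖ := norm_pos_iff.mpr (sub_ne_zero.mpr (h ζ hζ))
    rw [← mul_inv]
    exact inv_anti₀ (mul_pos (by linarith) hn) (key ζ hζ).1
  · unfold S1
    rw [← Multiset.sum_map_mul_left]
    apply Multiset.sum_map_le_sum_map
    intro ζ hζ
    have hn : 0 < ‖c' - ζ‖ := norm_pos_iff.mpr (sub_ne_zero.mpr (h ζ hζ))
    rw [← mul_inv]
    exact inv_anti₀ (lt_of_lt_of_le (mul_pos (by linarith) hn) (key ζ hζ).1) (key ζ hζ).2
  · intro ζ hζ hcζ
    have hn : 0 < ‖c' - ζ‖ := norm_pos_iff.mpr (sub_ne_zero.mpr (h ζ hζ))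
    have := (key ζ hζ).1
    rw [hcζ, sub_self, norm_zero] at this
    nlinarith

/-- Approximation by Taylor polynomials. -/
theorem taylor_approx {F : ℂ → ℂ} (hF : Differentiable ℂ F) {c0 : ℂ} {r A : ℝ} (hr : 0 < r)
    (hA : ∀ c ∈ ball c0 (2 * r), ‖F c‖ ≤ A) (N : ℕ) :
    ∃ p : Polynomial ℂ, p.natDegree ≤ N ∧
      ∀ c ∈ ball c0 (3 / 2 * r), ‖F c - p.eval c‖ ≤ 4 * A * (3 / 4) ^ (N + 1) := by
  have hA2 : ∀ z ∈ closedBall c0 (2 * r), ‖F z‖ ≤ A := by
    intro z hz
    rw [← closure_ball c0 (by linarith)] at hz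
    exact le_on_closure hA (hF.continuous.norm.continuousOn) continuousOn_const hz
  have hA0 : 0 ≤ A := (norm_nonneg _).trans (hA c0 (mem_ball_self (by linarith)))
  set a : ℕ → ℂ := fun n => ((n.factorial : ℂ))⁻¹ * iteratedDeriv n F c0 with ha
  have hbound : ∀ n, ‖a n‖ ≤ A / (2 * r) ^ n := by
    intro n
    have h1 := Complex.norm_iteratedDeriv_le_of_forall_mem_sphere_norm_le (c := c0) (R := 2 * r)
      (C := A) (f := F) n (by linarith) hF.diffContOnCl
      (fun z hz => hA2 z (sphere_subset_closedBall hz))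
    rw [ha]
    simp only
    rw [norm_mul, norm_inv, Complex.norm_natCast]
    have hf : (0 : ℝ) < n.factorial := by exact_mod_cast n.factorial_pos
    calc ((n.factorial : ℝ))⁻¹ * ‖iteratedDeriv n F c0‖
        ≤ ((n.factorial : ℝ))⁻¹ * (n.factorial * A / (2 * r) ^ n) := by gcongr
      _ = A / (2 * r) ^ n := by field_simp
  refine ⟨∑ n ∈ Finset.range (N + 1), Polynomial.C (a n) * (Polynomial.X - Polynomial.C c0) ^ n, ?_, ?_⟩
  · apply Polynomial.natDegree_sum_le_of_forall_le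
    intro n hn
    have hn' : n ≤ N := by
      have := Finset.mem_range.mp hn
      omega
    refine (Polynomial.natDegree_C_mul_le _ _).trans ?_
    rw [Polynomial.natDegree_pow, Polynomial.natDegree_X_sub_C, mul_one]
    exact hn'
  · intro c hc
    have hcn : ‖c - c0‖ < 3 / 2 * r := by rw [← dist_eq_norm]; exact hc
    have hsum : HasSum (fun n => a n * (c - c0) ^ n) (F c) := by
      have h := Complex.hasSum_taylorSeries_on_ball (c := c0) (r := 2 * r) (f := F)
        hF.differentiableOn (z := c) (by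
          rw [mem_ball, dist_eq_norm]; linarith)
      have h2 : (fun n => a n * (c - c0) ^ n) =
          fun n : ℕ => ((n.factorial : ℂ))⁻¹ • (c - c0) ^ n • iteratedDeriv n F c0 := by
        funext n
        rw [smul_eq_mul, smul_eq_mul, ha]
        ring
      rw [h2]
      exact h
    rw [← hasSum_nat_add_iff' (N + 1)] at hsum
    have heval : (∑ n ∈ Finset.range (N + 1), Polynomial.C (a n) *
        (Polynomial.X - Polynomial.C c0) ^ n).eval c = ∑ n ∈ Finset.range (N + 1), a n * (c - c0) ^ n := by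
      rw [Polynomial.eval_finsetSum]
      simp
    rw [heval, ← hsum.tsum_eq]
    have hg : HasSum (fun n : ℕ => A * (3 / 4 : ℝ) ^ (n + (N + 1))) (4 * A * (3 / 4) ^ (N + 1)) := by
      have h1 := (hasSum_geometric_of_lt_one (r := (3 / 4 : ℝ)) (by norm_num) (by norm_num)).mul_left
        (A * (3 / 4) ^ (N + 1))
      have h2 : A * (3 / 4 : ℝ) ^ (N + 1) * (1 - 3 / 4)⁻¹ = 4 * A * (3 / 4) ^ (N + 1) := by
        norm_num; ring
      rw [h2] at h1
      refine h1.congr_fun ?_ |> fun h => h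
      intro n
      rw [pow_add]; ring
    apply tsum_of_norm_bounded hg
    intro n
    rw [norm_mul, norm_pow]
    have h3 : ‖c - c0‖ ^ (n + (N + 1)) ≤ (3 / 2 * r) ^ (n + (N + 1)) :=
      pow_le_pow_left₀ (norm_nonneg _) hcn.le _
    calc ‖a (n + (N + 1))‖ * ‖c - c0‖ ^ (n + (N + 1))
        ≤ A / (2 * r) ^ (n + (N + 1)) * (3 / 2 * r) ^ (n + (N + 1)) := by
          gcongr
          exact hbound _
      _ = A * (3 / 4 : ℝ) ^ (n + (N + 1)) := by
          rw [div_mul_eq_mul_div, mul_div_assoc, ← div_pow]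
          congr 2
          field_simp
          norm_num

end Pool.Agent.H32MB
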