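import Mathlib
import Pool.Agent.H32MB.Tay

set_option autoImplicit false

open MeasureTheory Metric Set

namespace Pool.Agent.H32MB

theorem det_mul (a : ℂ) :
    ((ContinuousLinearMap.toSpanSingleton ℂ a).restrictScalars ℝ : ℂ →L[ℝ] ℂ).det = ‖a‖ ^ 2 := by
  rw [ContinuousLinearMap.det, ← LinearMap.det_toMatrix Complex.basisOneI, Matrix.det_fin_two]
  simp [LinearMap.toMatrix_apply, Complex.basisOneI, Complex.sq_norm, Complex.normSq_apply]

/-- Change of variables for injective holomorphic functions. -/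
theorem change_var {h : ℂ → ℂ} {s : Set ℂ} (hs : MeasurableSet s)
    (hd : ∀ z ∈ s, DifferentiableAt ℂ h z) (hi : InjOn h s) (G : ℂ → ENNReal) :
    ∫⁻ z in s, ENNReal.ofReal (‖deriv h z‖ ^ 2) * G (h z) = ∫⁻ w in h '' s, G w := by
  rw [lintegral_image_eq_lintegral_abs_det_fderiv_mul volume hs
    (f' := fun z => (ContinuousLinearMap.toSpanSingleton ℂ (deriv h z)).restrictScalars ℝ)
    (fun z hz => ((hd z hz).hasDerivAt.hasFDerivAt.restrictScalars ℝ).hasFDerivWithinAt) hi]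
  simp only [det_mul, abs_pow, abs_norm]

theorem inj_on_ball {h : ℂ → ℂ} (hh : Differentiable ℂ h) {c : ℂ} {ρ : ℝ} {a : ℂ} (ha : a ≠ 0)
    (hclose : ∀ z ∈ ball c ρ, ‖deriv h z - a‖ ≤ ‖a‖ / 4) :
    InjOn h (ball c ρ) ∧ ∀ z ∈ ball c ρ, ‖h z - h c‖ ≤ 5 / 4 * ‖a‖ * ‖z - c‖ := by
  have ha0 : 0 < ‖a‖ := norm_pos_iff.mpr ha
  set k : ℂ → ℂ := fun z => h z - a * z with hk
  have hkd : ∀ z ∈ ball c ρ, HasDerivWithinAt k (deriv h z - a) (ball c ρ) z := by
    intro z _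
    have h1 := (hh z).hasDerivAt.sub ((hasDerivAt_id z).const_mul a)
    simp only [mul_one] at h1
    exact h1.hasDerivWithinAt
  have key : ∀ x ∈ ball c ρ, ∀ y ∈ ball c ρ, ‖k y - k x‖ ≤ ‖a‖ / 4 * ‖y - x‖ := fun x hx y hy =>
    (convex_ball c ρ).norm_image_sub_le_of_norm_hasDerivWithin_le hkd hclose hx hy
  refine ⟨?_, ?_⟩
  · intro x hx y hy hxy
    by_contra hne
    have h2 := key x hx y hy
    have h3 : k y - k x = -(a * (y - x)) := by
      simp only [hk]; rw [hxy]; ring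
    rw [h3, norm_neg, norm_mul] at h2
    have h4 : 0 < ‖y - x‖ := norm_pos_iff.mpr (sub_ne_zero.mpr (Ne.symm hne))
    nlinarith [mul_pos ha0 h4]
  · intro z hz
    have hc : c ∈ ball c ρ := mem_ball_self (pos_of_mem_ball hz)
    have h2 := key c hc z hz
    have h3 : h z - h c = (k z - k c) + a * (z - c) := by simp only [hk]; ring
    rw [h3]
    refine (norm_add_le _ _).trans ?_
    rw [norm_mul]
    nlinarith

/-- On a disc where the derivative is nearly constant. -/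
theorem inj_bound {d : ℕ} (hd : 8 ≤ d) {h : ℂ → ℂ} (hh : Differentiable ℂ h) {c : ℂ} {ρ : ℝ}
    (hρ : 0 < ρ) {a : ℂ} (ha : a ≠ 0) (hclose : ∀ z ∈ ball c ρ, ‖deriv h z - a‖ ≤ ‖a‖ / 4) :
    ∫⁻ z in ball c ρ ∩ {z | ‖h z‖ ≤ 1 + 6 / d},
      ENNReal.ofReal (‖deriv h z‖ * (1 / d + max 0 (1 - ‖h z‖))⁻¹) ≤
      ENNReal.ofReal (34 * Real.pi * ρ * Real.log d) := by
  have ha0 : 0 < ‖a‖ := norm_pos_iff.mpr ha
  have hpi := Real.pi_pos
  have hdR : (8 : ℝ) ≤ d := by exact_mod_cast hd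
  have hd0 : (0 : ℝ) < d := by linarith
  have hlog : 0 < Real.log d := Real.log_pos (by linarith)
  obtain ⟨hinj, hlip⟩ := inj_on_ball hh ha hclose
  set s : Set ℂ := ball c ρ ∩ {z | ‖h z‖ ≤ 1 + 6 / d} with hs
  have hsm : MeasurableSet s :=
    measurableSet_ball.inter (measurableSet_le hh.continuous.norm.measurable measurable_const)
  set G : ℂ → ENNReal := fun w => ENNReal.ofReal ((1 / d + max 0 (1 - ‖w‖))⁻¹) with hG
  have h1 : ∫⁻ z in s, ENNReal.ofReal (‖deriv h z‖ * (1 / d + max 0 (1 - ‖h z‖))⁻¹) ≤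
      ∫⁻ z in s, ENNReal.ofReal (4 / (3 * ‖a‖)) * (ENNReal.ofReal (‖deriv h z‖ ^ 2) * G (h z)) := by
    apply setLIntegral_mono' hsm
    intro z hz
    have h2 := hclose z hz.1
    have h3 : 3 / 4 * ‖a‖ ≤ ‖deriv h z‖ := by
      have := norm_sub_norm_le a (deriv h z)
      rw [norm_sub_rev] at this
      linarith
    have hx : 0 < 1 / (d : ℝ) + max 0 (1 - ‖h z‖) := by positivity
    simp only [hG]
    rw [← ENNReal.ofReal_mul (by positivity), ← ENNReal.ofReal_mul (by positivity)]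
    apply ENNReal.ofReal_le_ofReal
    rw [← mul_assoc]
    gcongr
    rw [div_mul_eq_mul_div, le_div_iff₀ (by positivity)]
    nlinarith [norm_nonneg (deriv h z)]
  refine h1.trans ?_
  rw [lintegral_const_mul' _ _ ENNReal.ofReal_ne_top, change_var hsm (fun z _ => hh z)
    (hinj.mono inter_subset_left) G]
  have h4 : h '' s ⊆ ball (h c) (5 / 4 * ‖a‖ * ρ) ∩ {w : ℂ | ‖w‖ ≤ 1 + 6 / d} := by
    rintro _ ⟨z, hz, rfl⟩
    refine ⟨?_, hz.2⟩
    rw [mem_ball, dist_eq_norm]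
    have h5 := hlip z hz.1
    have h6 : ‖z - c‖ < ρ := by rw [← dist_eq_norm]; exact hz.1
    have h7 : 0 < 5 / 4 * ‖a‖ := by positivity
    nlinarith
  calc ENNReal.ofReal (4 / (3 * ‖a‖)) * ∫⁻ w in h '' s, G w
      ≤ ENNReal.ofReal (4 / (3 * ‖a‖)) *
        ENNReal.ofReal (4 * Real.pi * (5 / 4 * ‖a‖ * ρ) * (5 * Real.log d)) := by
        gcongr
        exact (lintegral_mono_set h4).trans (ring_log hd (h c) (by positivity))
    _ ≤ _ := by
        rw [← ENNReal.ofReal_mul (by positivity)]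
        apply ENNReal.ofReal_le_ofReal
        have h8 : 4 / (3 * ‖a‖) * (4 * Real.pi * (5 / 4 * ‖a‖ * ρ) * (5 * Real.log d)) =
            100 / 3 * Real.pi * ρ * Real.log d := by
          field_simp
          ring
        rw [h8]
        gcongr
        norm_num

end Pool.Agent.H32MB
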