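import Mathlib
import Pool.Agent.H32MB.Inj

set_option autoImplicit false

open MeasureTheory Metric Set

namespace Pool.Agent.H32MB

/-- the small constant -/
noncomputable def kap : ℝ := 1 / 2000

noncomputable def qt (r : ℝ) (p : Polynomial ℂ) (c : ℂ) : ℝ := 1 / r + S1 p.roots c
noncomputable def aa (d : ℕ) (A : ℝ) (p : Polynomial ℂ) (c : ℂ) : ℝ := ‖p.eval c‖ + A / d
noncomputable def xx (h : ℂ → ℂ) (c : ℂ) : ℝ := max 0 (1 - ‖h c‖)
noncomputable def qq (d : ℕ) (h : ℂ → ℂ) (r A : ℝ) (p : Polynomial ℂ) (c : ℂ) : ℝ :=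
  qt r p c + aa d A p c * (1 / d + xx h c)⁻¹

/-- The setup of one step. -/
structure SU (d : ℕ) (h : ℂ → ℂ) (c0 : ℂ) (r A : ℝ) (p : Polynomial ℂ) : Prop where
  hd : 8 ≤ d
  hh : Differentiable ℂ h
  hr : 0 < r
  hA : 1 ≤ A
  hAr : A * r ≤ 1
  hder : ∀ c ∈ ball c0 (2 * r), ‖deriv h c‖ ≤ A
  happ : ∀ c ∈ ball c0 (3 / 2 * r), ‖deriv h c - p.eval c‖ ≤ A / (16 * d)

variable {d : ℕ} {h : ℂ → ℂ} {c0 : ℂ} {r A : ℝ} {p : Polynomial ℂ}

theorem eval_eq_Pr (p : Polynomial ℂ) (c : ℂ) : p.eval c = p.leadingCoeff * Pr p.roots c :=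
  (IsAlgClosed.splits p).eval_eq_prod_roots c

theorem qt_pos (hr : 0 < r) (p : Polynomial ℂ) (c : ℂ) : 0 < qt r p c := by
  unfold qt
  have := S1_nonneg p.roots c
  positivity

theorem qt_ge (p : Polynomial ℂ) (c : ℂ) : 1 / r ≤ qt r p c := by
  unfold qt
  linarith [S1_nonneg p.roots c]

theorem xx_nonneg (h : ℂ → ℂ) (c : ℂ) : 0 ≤ xx h c := le_max_left _ _

theorem SU.dpos (su : SU d h c0 r A p) : (0 : ℝ) < d := by
  have := su.hd
  exact_mod_cast (by omega : 0 < d)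

theorem SU.d8 (su : SU d h c0 r A p) : (8 : ℝ) ≤ d := by exact_mod_cast su.hd

theorem SU.aa_pos (su : SU d h c0 r A p) (c : ℂ) : 0 < aa d A p c := by
  have h1 := su.dpos
  have h2 : 0 < A := by linarith [su.hA]
  unfold aa
  positivity

theorem SU.X_pos (su : SU d h c0 r A p) (c : ℂ) : 0 < 1 / (d : ℝ) + xx h c := by
  have h1 := su.dpos
  have := xx_nonneg h c
  positivity

theorem SU.qt_le_qq (su : SU d h c0 r A p) (c : ℂ) : qt r p c ≤ qq d h r A p c := by
  unfold qq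
  have h1 := su.aa_pos c
  have h2 := su.X_pos c
  have : 0 ≤ aa d A p c * (1 / d + xx h c)⁻¹ := by positivity
  linarith

theorem SU.qq_pos (su : SU d h c0 r A p) (c : ℂ) : 0 < qq d h r A p c :=
  (qt_pos su.hr p c).trans_le (su.qt_le_qq c)

theorem exp_small : Real.exp (1 / 1000) - 1 ≤ 1 / 16 := by
  have h1 := Real.exp_bound_div_one_sub_of_interval (x := 1 / 1000) (by norm_num) (by norm_num)
  have h2 : (1 : ℝ) / (1 - 1 / 1000) ≤ 1 + 1 / 16 := by norm_num
  linarith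

/-- Facts near a point. -/
theorem SU.near (su : SU d h c0 r A p) {c c' : ℂ} (hc' : c' ∈ ball c0 (13 / 10 * r))
    (hZ : ∀ ζ ∈ p.roots, c' ≠ ζ) (hcc : ‖c - c'‖ ≤ 2 * (kap / qt r p c')) :
    ‖c - c'‖ ≤ r / 1000 ∧ ‖p.eval c - p.eval c'‖ ≤ ‖p.eval c'‖ / 16 ∧
      ‖deriv h c‖ ≤ 17 / 16 * aa d A p c' ∧ qt r p c ≤ 17 / 16 * qt r p c' ∧
      15 / 16 * qt r p c' ≤ qt r p c ∧ ∀ ζ ∈ p.roots, c ≠ ζ := by
  have hr := su.hr
  have hq := qt_pos hr p c'
  have hd0 := su.dpos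
  have hA0 : 0 < A := by linarith [su.hA]
  have h1 : ‖c - c'‖ * qt r p c' ≤ 1 / 1000 := by
    have h2 : 2 * (kap / qt r p c') * qt r p c' = 1 / 1000 := by
      unfold kap; field_simp; norm_num
    calc ‖c - c'‖ * qt r p c' ≤ 2 * (kap / qt r p c') * qt r p c' := by gcongr
      _ = 1 / 1000 := h2
  have hS0 := S1_nonneg p.roots c'
  have h3 : ‖c - c'‖ * S1 p.roots c' ≤ 1 / 1000 := by
    refine le_trans ?_ h1
    gcongr
    unfold qt
    have : 0 < 1 / r := by positivity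
    linarith
  have h4 : ‖c - c'‖ ≤ r / 1000 := by
    have h5 : ‖c - c'‖ * (1 / r) ≤ 1 / 1000 := by
      refine le_trans ?_ h1
      gcongr
      exact qt_ge p c'
    rw [mul_one_div, div_le_iff₀ hr] at h5
    linarith
  have h6 : ‖p.eval c - p.eval c'‖ ≤ ‖p.eval c'‖ / 16 := by
    rw [eval_eq_Pr, eval_eq_Pr, ← mul_sub, norm_mul, norm_mul]
    have h7 := Pr_close p.roots (c := c) hZ
    have h8 : Real.exp (‖c - c'‖ * S1 p.roots c') - 1 ≤ 1 / 16 := by
      have : Real.exp (‖c - c'‖ * S1 p.roots c') ≤ Real.exp (1 / 1000) := Real.exp_le_exp.mpr h3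
      linarith [exp_small]
    calc ‖p.leadingCoeff‖ * ‖Pr p.roots c - Pr p.roots c'‖
        ≤ ‖p.leadingCoeff‖ * ((Real.exp (‖c - c'‖ * S1 p.roots c') - 1) * ‖Pr p.roots c'‖) := by
          gcongr
      _ ≤ ‖p.leadingCoeff‖ * (1 / 16 * ‖Pr p.roots c'‖) := by gcongr
      _ = _ := by ring
  obtain ⟨h9, h10, h11⟩ := S1_compare hZ (by norm_num : (1 / 1000 : ℝ) < 1) h3
  refine ⟨h4, h6, ?_, ?_, ?_, h11⟩
  · have hcb : c ∈ ball c0 (3 / 2 * r) := by
      rw [mem_ball, dist_eq_norm] at hc' ⊢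
      have h12 := norm_add_le (c - c') (c' - c0)
      rw [sub_add_sub_cancel] at h12
      linarith
    have h13 := su.happ c hcb
    have h14 : ‖deriv h c‖ ≤ ‖deriv h c - p.eval c‖ + ‖p.eval c - p.eval c'‖ + ‖p.eval c'‖ := by
      have h15 : deriv h c = (deriv h c - p.eval c) + (p.eval c - p.eval c') + p.eval c' := by ring
      conv_lhs => rw [h15]
      exact (norm_add_le _ _).trans (by gcongr; exact norm_add_le _ _)
    unfold aa
    have h16 : A / (16 * d) = 1 / 16 * (A / d) := by field_simp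
    have h17 : 0 < A / d := by positivity
    rw [h16] at h13
    linarith
  · unfold qt
    have : 0 < 1 / r := by positivity
    have h18 : (1 - 1 / 1000 : ℝ)⁻¹ ≤ 17 / 16 := by norm_num
    have h19 : (1 - 1 / 1000 : ℝ)⁻¹ * S1 p.roots c' ≤ 17 / 16 * S1 p.roots c' := by gcongr
    linarith
  · unfold qt
    have : 0 < 1 / r := by positivity
    have h18 : (15 / 16 : ℝ) ≤ (1 + 1 / 1000 : ℝ)⁻¹ := by norm_num
    have h19 : 15 / 16 * S1 p.roots c' ≤ (1 + 1 / 1000 : ℝ)⁻¹ * S1 p.roots c' := by gcongr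
    linarith

/-- Variation of `h`. -/
theorem SU.near_h (su : SU d h c0 r A p) {c c' : ℂ} (hc' : c' ∈ ball c0 (13 / 10 * r))
    (hZ : ∀ ζ ∈ p.roots, c' ≠ ζ) {t : ℝ} (ht : 0 < t) (ht2 : t ≤ 2)
    (hcc : ‖c - c'‖ < t * (kap / qq d h r A p c')) :
    ‖h c - h c'‖ ≤ t / 1000 * (1 / d + xx h c') ∧ |xx h c - xx h c'| ≤ t / 1000 * (1 / d + xx h c') := by
  have hr := su.hr
  have hqq := su.qq_pos c'
  have hq := qt_pos hr p c'
  have hX := su.X_pos c'
  have ha := su.aa_pos c'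
  have hk : 0 < kap := by unfold kap; norm_num
  have hrho : kap / qq d h r A p c' ≤ kap / qt r p c' :=
    div_le_div_of_nonneg_left hk.le hq (su.qt_le_qq c')
  have hder : ∀ z ∈ ball c' (t * (kap / qq d h r A p c')), ‖deriv h z‖ ≤ 17 / 16 * aa d A p c' := by
    intro z hz
    rw [mem_ball, dist_eq_norm] at hz
    have h1 : 0 < kap / qq d h r A p c' := by positivity
    refine (su.near (c := z) hc' hZ ?_).2.2.1
    calc ‖z - c'‖ ≤ t * (kap / qq d h r A p c') := hz.le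
      _ ≤ 2 * (kap / qt r p c') := by gcongr
  have h2 : ‖h c - h c'‖ ≤ 17 / 16 * aa d A p c' * ‖c - c'‖ :=
    (convex_ball c' (t * (kap / qq d h r A p c'))).norm_image_sub_le_of_norm_deriv_le
      (fun z _ => su.hh z) hder (mem_ball_self ((norm_nonneg _).trans_lt hcc))
      (by rw [mem_ball, dist_eq_norm]; exact hcc)
  have h3 : aa d A p c' * (kap / qq d h r A p c') ≤ kap * (1 / d + xx h c') := by
    have h4 : aa d A p c' * (1 / d + xx h c')⁻¹ ≤ qq d h r A p c' := by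
      unfold qq; linarith
    rw [mul_div_assoc', div_le_iff₀ hqq]
    calc aa d A p c' * kap = kap * (1 / d + xx h c') * (aa d A p c' * (1 / d + xx h c')⁻¹) := by
          field_simp
      _ ≤ kap * (1 / d + xx h c') * qq d h r A p c' := by gcongr
  have h5 : ‖h c - h c'‖ ≤ t / 1000 * (1 / d + xx h c') := by
    calc ‖h c - h c'‖ ≤ 17 / 16 * aa d A p c' * ‖c - c'‖ := h2
      _ ≤ 17 / 16 * aa d A p c' * (t * (kap / qq d h r A p c')) := by gcongr
      _ = 17 / 16 * t * (aa d A p c' * (kap / qq d h r A p c')) := by ring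
      _ ≤ 17 / 16 * t * (kap * (1 / d + xx h c')) := by gcongr
      _ ≤ t / 1000 * (1 / d + xx h c') := by
          unfold kap
          have : 0 < t * (1 / d + xx h c') := by positivity
          nlinarith
  refine ⟨h5, ?_⟩
  refine le_trans ?_ h5
  unfold xx
  calc |max 0 (1 - ‖h c‖) - max 0 (1 - ‖h c'‖)| ≤ |(1 - ‖h c‖) - (1 - ‖h c'‖)| := by
        have := abs_max_sub_max_le_abs (1 - ‖h c‖) (1 - ‖h c'‖) 0
        rwa [max_comm, max_comm (1 - ‖h c'‖) 0] at this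
    _ = |‖h c'‖ - ‖h c‖| := by congr 1; ring
    _ ≤ ‖h c' - h c‖ := abs_norm_sub_norm_le _ _
    _ = _ := norm_sub_rev _ _

/-- The radius function varies slowly. -/
theorem SU.compare (su : SU d h c0 r A p) {c c' : ℂ} (hc' : c' ∈ ball c0 (13 / 10 * r))
    (hZ : ∀ ζ ∈ p.roots, c' ≠ ζ) (hcc : ‖c - c'‖ < kap / qq d h r A p c' / 2) :
    kap / qq d h r A p c' / 2 ≤ kap / qq d h r A p c ∧ kap / qq d h r A p c ≤ 2 * (kap / qq d h r A p c') := by
  have hr := su.hr
  have hqq := su.qq_pos c'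
  have hqq' := su.qq_pos c
  have hq := qt_pos hr p c'
  have hX := su.X_pos c'
  have hX' := su.X_pos c
  have ha := su.aa_pos c'
  have ha' := su.aa_pos c
  have hd0 := su.dpos
  have hA0 : 0 < A := by linarith [su.hA]
  have hk : 0 < kap := by unfold kap; norm_num
  have hrho : kap / qq d h r A p c' ≤ kap / qt r p c' :=
    div_le_div_of_nonneg_left hk.le hq (su.qt_le_qq c')
  have h0 : 0 < kap / qq d h r A p c' := by positivity
  obtain ⟨-, h1, -, h2, h3, -⟩ := su.near (c := c) hc' hZ (by linarith)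
  obtain ⟨-, h4⟩ := su.near_h (c := c) hc' hZ (t := 1) one_pos (by norm_num) (by linarith)
  rw [abs_le] at h4
  have h5 : aa d A p c ≤ 17 / 16 * aa d A p c' := by
    unfold aa
    have h6 := norm_sub_norm_le (p.eval c) (p.eval c')
    have : 0 < A / d := by positivity
    linarith
  have h6 : 15 / 16 * aa d A p c' ≤ aa d A p c := by
    unfold aa
    have h6 := norm_sub_norm_le (p.eval c') (p.eval c)
    rw [norm_sub_rev] at h6
    have : 0 < A / d := by positivity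
    linarith
  have h7 : (1 / d + xx h c)⁻¹ ≤ 17 / 16 * (1 / d + xx h c')⁻¹ := by
    rw [inv_eq_one_div, inv_eq_one_div, mul_one_div, div_le_div_iff₀ hX' hX]
    linarith
  have h8 : 15 / 16 * (1 / d + xx h c')⁻¹ ≤ (1 / d + xx h c)⁻¹ := by
    rw [inv_eq_one_div, inv_eq_one_div, mul_one_div, div_le_div_iff₀ hX hX']
    linarith
  have hXi : 0 < (1 / d + xx h c')⁻¹ := by positivity
  have hXi' : 0 < (1 / d + xx h c)⁻¹ := by positivity
  have h9 : qq d h r A p c ≤ 2 * qq d h r A p c' := by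
    unfold qq
    have : aa d A p c * (1 / d + xx h c)⁻¹ ≤ (17 / 16 * aa d A p c') * (17 / 16 * (1 / d + xx h c')⁻¹) := by
      gcongr
    have h10 : 0 < aa d A p c' * (1 / d + xx h c')⁻¹ := by positivity
    nlinarith
  have h10 : qq d h r A p c' ≤ 2 * qq d h r A p c := by
    unfold qq
    have : (15 / 16 * aa d A p c') * (15 / 16 * (1 / d + xx h c')⁻¹) ≤ aa d A p c * (1 / d + xx h c)⁻¹ := by
      gcongr
    have h10 : 0 < aa d A p c' * (1 / d + xx h c')⁻¹ := by positivity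
    nlinarith
  constructor
  · rw [div_div, div_le_div_iff₀ (by positivity) hqq']
    nlinarith
  · rw [mul_div_assoc', div_le_div_iff₀ hqq' hqq]
    nlinarith

end Pool.Agent.H32MB
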