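import Mathlib
import Pool.Agent.H32MB.Av
import Pool.Agent.H32MB.Near

set_option autoImplicit false

open MeasureTheory Metric Set

namespace Pool.Agent.H32MB

theorem S1_measurable (Z : Multiset ℂ) : Measurable (S1 Z) := by
  induction Z using Multiset.induction_on with
  | empty =>
    have : S1 0 = fun _ => 0 := by funext c; simp [S1]
    rw [this]; exact measurable_const
  | cons ζ Z ih =>
    have : S1 (ζ ::ₘ Z) = fun c => ‖c - ζ‖⁻¹ + S1 Z c := by funext c; simp [S1]
    rw [this]
    exact (by fun_prop : Measurable fun c : ℂ => ‖c - ζ‖⁻¹).add ih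

theorem qt_measurable (r : ℝ) (p : Polynomial ℂ) : Measurable (qt r p) := by
  unfold qt
  exact measurable_const.add (S1_measurable _)

variable {d : ℕ} {h : ℂ → ℂ} {c0 : ℂ} {r A : ℝ} {p : Polynomial ℂ}

theorem xx_measurable (hh : Differentiable ℂ h) : Measurable (xx h) := by
  unfold xx
  exact measurable_const.max (measurable_const.sub hh.continuous.norm.measurable)

theorem qq_measurable (hh : Differentiable ℂ h) (r A : ℝ) (p : Polynomial ℂ) :
    Measurable (qq d h r A p) := by
  unfold qq
  have h1 : Measurable (aa d A p) := by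
    unfold aa
    exact p.continuous.norm.measurable.add measurable_const
  exact (qt_measurable r p).add (h1.mul (measurable_const.add (xx_measurable hh)).inv)

theorem S1_int (Z : Multiset ℂ) (c0 : ℂ) {R : ℝ} (hR : 0 < R) :
    ∫⁻ c in ball c0 R, ENNReal.ofReal (S1 Z c) ≤ ENNReal.ofReal (Z.card * (3 * Real.pi * R)) := by
  induction Z using Multiset.induction_on with
  | empty => simp [S1]
  | cons ζ Z ih =>
    have h1 : ∀ c, ENNReal.ofReal (S1 (ζ ::ₘ Z) c) =
        ENNReal.ofReal (‖c - ζ‖⁻¹) + ENNReal.ofReal (S1 Z c) := by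
      intro c
      rw [← ENNReal.ofReal_add (by positivity) (S1_nonneg _ _)]
      congr 1
      simp [S1]
    simp only [h1]
    rw [lintegral_add_left (by fun_prop)]
    refine (add_le_add (lintegral_inv_dist c0 ζ hR) ih).trans (le_of_eq ?_)
    have := Real.pi_pos
    rw [← ENNReal.ofReal_add (by positivity) (by positivity), Multiset.card_cons]
    congr 1
    push_cast
    ring

theorem qt_int (hr : 0 < r) (p : Polynomial ℂ) (c0 : ℂ) {L : ℝ} (hL : 2 ≤ L)
    (hN : (p.roots.card : ℝ) ≤ 12 * L) :
    ∫⁻ c in ball c0 (12 / 10 * r), ENNReal.ofReal (qt r p c) ≤ ENNReal.ofReal (44 * Real.pi * L * r) := by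
  have hpi := Real.pi_pos
  have h1 : ∀ c, ENNReal.ofReal (qt r p c) = ENNReal.ofReal (1 / r) + ENNReal.ofReal (S1 p.roots c) := by
    intro c
    rw [← ENNReal.ofReal_add (by positivity) (S1_nonneg _ _)]
    rfl
  simp only [h1]
  rw [lintegral_add_left measurable_const, setLIntegral_const, Complex.volume_ball]
  have h2 := S1_int p.roots c0 (R := 12 / 10 * r) (by positivity)
  have h3 : (NNReal.pi : ENNReal) = ENNReal.ofReal Real.pi := by
    rw [← NNReal.coe_real_pi, ENNReal.ofReal_coe_nnreal]
  rw [h3, ← ENNReal.ofReal_pow (by positivity), ← ENNReal.ofReal_mul (by positivity),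
    ← ENNReal.ofReal_mul (by positivity)]
  refine (add_le_add_right h2 _).trans ?_
  rw [← ENNReal.ofReal_add (by positivity) (by positivity)]
  apply ENNReal.ofReal_le_ofReal
  have h4 : 1 / r * ((12 / 10 * r) ^ 2 * Real.pi) = 144 / 100 * (Real.pi * r) := by
    field_simp
    ring
  have h5 : (p.roots.card : ℝ) * (3 * Real.pi * (12 / 10 * r)) ≤ 12 * L * (3 * Real.pi * (12 / 10 * r)) := by
    gcongr
  have h6 : 2 * (Real.pi * r) ≤ L * (Real.pi * r) := by gcongr
  rw [h4]
  nlinarith

/-- the region of integration -/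
def TT (d : ℕ) (h : ℂ → ℂ) (c0 : ℂ) (r : ℝ) (p : Polynomial ℂ) : Set ℂ :=
  (ball c0 (11 / 10 * r) ∩ {c | ‖h c‖ ≤ 1 + 6 / d}) \ {c | c ∈ p.roots}

theorem roots_measurable (p : Polynomial ℂ) : MeasurableSet {c | c ∈ p.roots} := by
  have : {c | c ∈ p.roots} = (p.roots.toFinset : Set ℂ) := by
    ext c; simp
  rw [this]
  exact (Finset.finite_toSet _).measurableSet

theorem TT_measurable (hh : Differentiable ℂ h) : MeasurableSet (TT d h c0 r p) :=
  (measurableSet_ball.inter (measurableSet_le hh.continuous.norm.measurable measurable_const)).diff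
    (roots_measurable p)

theorem SU.slope_int (su : SU d h c0 r A p) (hN : (p.roots.card : ℝ) ≤ 12 * Real.log d)
    (hL : 2 ≤ Real.log d) :
    ∫⁻ c in TT d h c0 r p, ENNReal.ofReal (‖deriv h c‖ * (1 / d + xx h c)⁻¹) ≤
      ENNReal.ofReal (17952000 * Real.pi ^ 2 * Real.log d ^ 2 * r) := by
  have hpi := Real.pi_pos
  have hr := su.hr
  have hd0 := su.dpos
  have hA0 : 0 < A := by linarith [su.hA]
  have hk : 0 < kap := by unfold kap; norm_num
  set L := Real.log d with hLd
  set T' : Set ℂ := ball c0 (12 / 10 * r) \ {c | c ∈ p.roots} with hT'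
  set Φ : ℂ → ENNReal := fun c => ENNReal.ofReal (‖deriv h c‖ * (1 / d + xx h c)⁻¹) with hΦ
  have hΦm : Measurable Φ := by
    apply ENNReal.measurable_ofReal.comp
    exact (measurable_deriv h).norm.mul (measurable_const.add (xx_measurable su.hh)).inv
  have hTm : MeasurableSet T' := measurableSet_ball.diff (roots_measurable p)
  have hav := averaging hΦm (ρ := fun c => kap / qt r p c) (measurable_const.div (qt_measurable r p))
    (TT_measurable (d := d) (c0 := c0) (r := r) (p := p) su.hh) hTm
    (fun c _ => div_pos hk (qt_pos hr p c)) (by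
      intro c' hc' c hcc
      have hb : c' ∈ ball c0 (13 / 10 * r) := by
        have := hc'.1.1
        rw [mem_ball] at this ⊢
        linarith
      have hZ : ∀ ζ ∈ p.roots, c' ≠ ζ := by
        intro ζ hζ he
        exact hc'.2 (by rw [he]; exact hζ)
      have hq' := qt_pos hr p c'
      have hq := qt_pos hr p c
      rw [dist_eq_norm] at hcc
      have h0 : 0 < kap / qt r p c' := div_pos hk hq'
      obtain ⟨h1, -, -, h2, h3, h4⟩ := su.near hb hZ (c := c) (by linarith)
      refine ⟨⟨?_, ?_⟩, ?_, ?_⟩
      · have := hc'.1.1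
        rw [mem_ball, dist_eq_norm] at this ⊢
        have h5 := norm_add_le (c - c') (c' - c0)
        rw [sub_add_sub_cancel] at h5
        linarith
      · intro hc
        exact h4 c hc rfl
      · rw [div_div, div_le_div_iff₀ (by positivity) hq]
        nlinarith
      · rw [mul_div_assoc', div_le_div_iff₀ hq hq']
        nlinarith)
  refine hav.trans ?_
  have hinner : ∀ c ∈ T', ENNReal.ofReal (((kap / qt r p c) ^ 2)⁻¹) *
      ∫⁻ c' in ball c (kap / qt r p c) ∩ TT d h c0 r p, Φ c' ≤
      ENNReal.ofReal (34 * Real.pi * L * 2000) * ENNReal.ofReal (qt r p c) := by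
    intro c hc
    have hq := qt_pos hr p c
    set ρ : ℝ := kap / qt r p c with hρ
    have hρ0 : 0 < ρ := div_pos hk hq
    have hcb : c ∈ ball c0 (13 / 10 * r) := by
      have := hc.1
      rw [mem_ball] at this ⊢
      linarith
    have hZ : ∀ ζ ∈ p.roots, c ≠ ζ := by
      intro ζ hζ he
      exact hc.2 (by rw [he]; exact hζ)
    have hnear : ∀ z ∈ ball c ρ, ‖z - c‖ ≤ r / 1000 ∧ ‖p.eval z - p.eval c‖ ≤ ‖p.eval c‖ / 16 ∧
        ‖deriv h z‖ ≤ 17 / 16 * aa d A p c := by
      intro z hz
      rw [mem_ball, dist_eq_norm] at hz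
      obtain ⟨h1, h2, h3, -⟩ := su.near hcb hZ (c := z) (by linarith)
      exact ⟨h1, h2, h3⟩
    have hρr : ρ ≤ kap * r := by
      rw [hρ, div_le_iff₀ hq]
      have := qt_ge (r := r) p c
      have h6 : kap * r * (1 / r) ≤ kap * r * qt r p c := by gcongr
      have h7 : kap * r * (1 / r) = kap := by field_simp
      linarith
    have hmain : ∫⁻ c' in ball c ρ ∩ TT d h c0 r p, Φ c' ≤
        ENNReal.ofReal (34 * Real.pi * ρ * L) := by
      by_cases hcase : A / d ≤ ‖p.eval c‖
      · have hpc : p.eval c ≠ 0 := by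
          intro h0
          rw [h0, norm_zero] at hcase
          have : 0 < A / d := by positivity
          linarith
        have h1 := inj_bound su.hd su.hh hρ0 hpc (fun z hz => by
          obtain ⟨h1, h2, -⟩ := hnear z hz
          have hzb : z ∈ ball c0 (3 / 2 * r) := by
            rw [mem_ball, dist_eq_norm] at hcb ⊢
            have h5 := norm_add_le (z - c) (c - c0)
            rw [sub_add_sub_cancel] at h5
            linarith
          have h3 := su.happ z hzb
          have h4 : deriv h z - p.eval c = (deriv h z - p.eval z) + (p.eval z - p.eval c) := by ring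
          rw [h4]
          refine (norm_add_le _ _).trans ?_
          have h16 : A / (16 * d) = 1 / 16 * (A / d) := by field_simp
          rw [h16] at h3
          linarith [norm_nonneg (p.eval c)])
        refine le_trans (lintegral_mono_set ?_) h1
        intro z hz
        exact ⟨hz.1, hz.2.1.2⟩
      · push Not at hcase
        have h1 : ∫⁻ c' in ball c ρ ∩ TT d h c0 r p, Φ c' ≤ ∫⁻ _ in ball c ρ, ENNReal.ofReal (17 / 8 * A) := by
          refine (lintegral_mono_set inter_subset_left).trans ?_
          apply setLIntegral_mono' measurableSet_ball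
          intro z hz
          apply ENNReal.ofReal_le_ofReal
          obtain ⟨-, -, h3⟩ := hnear z hz
          have h4 : (1 / d + xx h z)⁻¹ ≤ (d : ℝ) := by
            rw [inv_le_comm₀ (su.X_pos z) hd0]
            have := xx_nonneg h z
            rw [one_div]
            linarith
          have h5 : ‖deriv h z‖ ≤ 17 / 8 * (A / d) := by
            unfold aa at h3
            linarith
          calc ‖deriv h z‖ * (1 / d + xx h z)⁻¹ ≤ (17 / 8 * (A / d)) * d := by
                gcongr
                exact (inv_pos.mpr (su.X_pos z)).le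
            _ = 17 / 8 * A := by field_simp
        refine h1.trans ?_
        rw [setLIntegral_const, Complex.volume_ball]
        have h3 : (NNReal.pi : ENNReal) = ENNReal.ofReal Real.pi := by
          rw [← NNReal.coe_real_pi, ENNReal.ofReal_coe_nnreal]
        rw [h3, ← ENNReal.ofReal_pow (by positivity), ← ENNReal.ofReal_mul (by positivity),
          ← ENNReal.ofReal_mul (by positivity)]
        apply ENNReal.ofReal_le_ofReal
        have h4 : 17 / 8 * A * (ρ ^ 2 * Real.pi) ≤ 17 / 8 * A * ((kap * r * ρ) * Real.pi) := by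
          gcongr
          rw [pow_two]
          gcongr
        have h5 : 17 / 8 * A * ((kap * r * ρ) * Real.pi) = 17 / 8 * kap * (A * r) * (Real.pi * ρ) := by ring
        have h6 : 17 / 8 * kap * (A * r) * (Real.pi * ρ) ≤ 17 / 8 * kap * 1 * (Real.pi * ρ) := by
          gcongr
          exact su.hAr
        have h7 : 17 / 8 * kap * 1 * (Real.pi * ρ) ≤ 34 * (Real.pi * ρ) * L := by
          unfold kap
          have : 0 < Real.pi * ρ := by positivity
          nlinarith
        calc 17 / 8 * A * (ρ ^ 2 * Real.pi) ≤ _ := h4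
          _ = _ := h5
          _ ≤ _ := h6
          _ ≤ _ := h7
          _ = _ := by ring
    calc ENNReal.ofReal ((ρ ^ 2)⁻¹) * ∫⁻ c' in ball c ρ ∩ TT d h c0 r p, Φ c'
        ≤ ENNReal.ofReal ((ρ ^ 2)⁻¹) * ENNReal.ofReal (34 * Real.pi * ρ * L) := by gcongr
      _ = _ := by
        rw [← ENNReal.ofReal_mul (by positivity), ← ENNReal.ofReal_mul (by positivity)]
        congr 1
        have h8 : qt r p c = kap / ρ := by rw [hρ]; field_simp
        rw [h8]
        unfold kap
        field_simp
  calc 6 * ∫⁻ c in T', ENNReal.ofReal (((kap / qt r p c) ^ 2)⁻¹) *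
        ∫⁻ c' in ball c (kap / qt r p c) ∩ TT d h c0 r p, Φ c'
      ≤ 6 * ∫⁻ c in T', ENNReal.ofReal (34 * Real.pi * L * 2000) * ENNReal.ofReal (qt r p c) := by
        gcongr 1
        exact setLIntegral_mono' hTm hinner
    _ ≤ 6 * (ENNReal.ofReal (34 * Real.pi * L * 2000) * ENNReal.ofReal (44 * Real.pi * L * r)) := by
        rw [lintegral_const_mul' _ _ ENNReal.ofReal_ne_top]
        gcongr
        exact (lintegral_mono_set sdiff_subset).trans (qt_int hr p c0 hL hN)
    _ ≤ _ := by
        have h6 : (6 : ENNReal) = ENNReal.ofReal 6 := by simp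
        rw [h6, ← ENNReal.ofReal_mul (by positivity), ← ENNReal.ofReal_mul (by norm_num)]
        apply ENNReal.ofReal_le_ofReal
        apply le_of_eq
        ring

theorem SU.qq_int (su : SU d h c0 r A p) (hN : (p.roots.card : ℝ) ≤ 12 * Real.log d)
    (hL : 2 ≤ Real.log d) :
    ∫⁻ c in TT d h c0 r p, ENNReal.ofReal (qq d h r A p c) ≤
      ENNReal.ofReal ((45 * Real.pi + 17952000 * Real.pi ^ 2) * Real.log d ^ 2 * r) := by
  have hpi := Real.pi_pos
  have hr := su.hr
  have hd0 := su.dpos
  have hA0 : 0 < A := by linarith [su.hA]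
  set L := Real.log d with hLd
  have h1 : ∀ c ∈ TT d h c0 r p, ENNReal.ofReal (qq d h r A p c) ≤ ENNReal.ofReal (qt r p c) +
      (ENNReal.ofReal (‖deriv h c‖ * (1 / d + xx h c)⁻¹) + ENNReal.ofReal (17 / 16 * A)) := by
    intro c hc
    have hX := su.X_pos c
    have hcb : c ∈ ball c0 (3 / 2 * r) := by
      have := hc.1.1
      rw [mem_ball] at this ⊢
      linarith
    have h3 := su.happ c hcb
    have h4 : ‖p.eval c‖ ≤ ‖deriv h c‖ + A / (16 * d) := by
      have := norm_sub_norm_le (p.eval c) (deriv h c)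
      rw [norm_sub_rev] at this
      linarith
    rw [← ENNReal.ofReal_add (by positivity) (by positivity),
      ← ENNReal.ofReal_add (qt_pos hr p c).le (by positivity)]
    apply ENNReal.ofReal_le_ofReal
    unfold qq aa
    have h5 : (1 / d + xx h c)⁻¹ ≤ (d : ℝ) := by
      rw [inv_le_comm₀ hX hd0]
      have := xx_nonneg h c
      rw [one_div]
      linarith
    have h6 : (‖p.eval c‖ + A / d) * (1 / d + xx h c)⁻¹ ≤
        (‖deriv h c‖ + 17 / 16 * (A / d)) * (1 / d + xx h c)⁻¹ := by
      have h16 : A / (16 * d) = 1 / 16 * (A / d) := by field_simp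
      rw [h16] at h4
      exact mul_le_mul_of_nonneg_right (by linarith) (inv_pos.mpr hX).le
    have h7 : 17 / 16 * (A / d) * (1 / d + xx h c)⁻¹ ≤ 17 / 16 * (A / d) * d := by gcongr
    have h8 : 17 / 16 * (A / d) * d = 17 / 16 * A := by field_simp
    nlinarith
  refine (setLIntegral_mono' (TT_measurable su.hh) h1).trans ?_
  have hm1 : Measurable fun c => ENNReal.ofReal (qt r p c) :=
    ENNReal.measurable_ofReal.comp (qt_measurable r p)
  have hsub : TT d h c0 r p ⊆ ball c0 (12 / 10 * r) := by
    intro c hc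
    have := hc.1.1
    rw [mem_ball] at this ⊢
    linarith
  rw [lintegral_add_left hm1, lintegral_add_right _ measurable_const]
  have h9 : ∫⁻ _ in TT d h c0 r p, ENNReal.ofReal (17 / 16 * A) ≤ ENNReal.ofReal (2 * Real.pi * r) := by
    refine (lintegral_mono_set hsub).trans ?_
    rw [setLIntegral_const, Complex.volume_ball]
    have h3 : (NNReal.pi : ENNReal) = ENNReal.ofReal Real.pi := by
      rw [← NNReal.coe_real_pi, ENNReal.ofReal_coe_nnreal]
    rw [h3, ← ENNReal.ofReal_pow (by positivity), ← ENNReal.ofReal_mul (by positivity),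
      ← ENNReal.ofReal_mul (by positivity)]
    apply ENNReal.ofReal_le_ofReal
    have h4 : 17 / 16 * A * ((12 / 10 * r) ^ 2 * Real.pi) = 153 / 100 * (A * r) * (Real.pi * r) := by ring
    rw [h4]
    have h5 : 153 / 100 * (A * r) * (Real.pi * r) ≤ 153 / 100 * 1 * (Real.pi * r) := by
      gcongr
      exact su.hAr
    have : 0 < Real.pi * r := by positivity
    nlinarith
  have h10 := (lintegral_mono_set (f := fun c => ENNReal.ofReal (qt r p c)) (μ := volume) hsub).trans
    (qt_int hr p c0 hL hN)
  refine (add_le_add h10 (add_le_add (su.slope_int hN hL) h9)).trans ?_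
  rw [← ENNReal.ofReal_add (by positivity) (by positivity),
    ← ENNReal.ofReal_add (by positivity) (by positivity)]
  apply ENNReal.ofReal_le_ofReal
  have h11 : 2 * L ≤ L ^ 2 := by nlinarith
  have h12 : 4 ≤ L ^ 2 := by nlinarith
  have h13 : 0 < Real.pi * r := by positivity
  have h14 : 44 * Real.pi * L * r ≤ 22 * (Real.pi * r) * L ^ 2 := by nlinarith
  have h15 : 2 * Real.pi * r ≤ (Real.pi * r) * L ^ 2 := by nlinarith
  nlinarith

end Pool.Agent.H32MB
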