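import Mathlib
import Pool.Agent.H32MB.Slope

set_option autoImplicit false

open MeasureTheory Metric Set

namespace Pool.Agent.H32MB

/-- The iterates `z ↦ z ^ d + c` started at the point `h c`. -/
def It (d : ℕ) : ℕ → (ℂ → ℂ) → (ℂ → ℂ)
  | 0, h => h
  | m + 1, h => It d m (fun c => h c ^ d + c)

theorem It_zero (d : ℕ) (h : ℂ → ℂ) : It d 0 h = h := rfl

theorem It_succ (d m : ℕ) (h : ℂ → ℂ) : It d (m + 1) h = It d m (fun c => h c ^ d + c) := rfl

theorem It_diff (d m : ℕ) : ∀ {h : ℂ → ℂ}, Differentiable ℂ h → Differentiable ℂ (It d m h) := by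
  induction m with
  | zero => intro h hh; exact hh
  | succ m ih =>
    intro h hh
    rw [It_succ]
    exact ih ((hh.pow d).add differentiable_id)

def Sh (d m : ℕ) (h : ℂ → ℂ) : Set ℂ := {c | ‖c‖ ≤ 3 ∧ ‖It d m h c‖ ≤ 22}

theorem Sh_measurable (d m : ℕ) {h : ℂ → ℂ} (hh : Differentiable ℂ h) : MeasurableSet (Sh d m h) :=
  (measurableSet_le measurable_norm measurable_const).inter
    (measurableSet_le (It_diff d m hh).continuous.norm.measurable measurable_const)

noncomputable def II (d m : ℕ) (h : ℂ → ℂ) (B : Set ℂ) : ENNReal :=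
  ∫⁻ c in B ∩ Sh d m h, ENNReal.ofReal ‖deriv (It d m h) c‖

theorem escape {d : ℕ} (hd : 2 ≤ d) (m : ℕ) : ∀ {h : ℂ → ℂ} {c : ℂ}, ‖c‖ ≤ 3 → 22 < ‖h c‖ →
    22 < ‖It d m h c‖ := by
  induction m with
  | zero => intro h c _ h2; exact h2
  | succ m ih =>
    intro h c h1 h2
    rw [It_succ]
    apply ih h1
    have h3 : ‖h c‖ ^ 2 ≤ ‖h c‖ ^ d := pow_le_pow_right₀ (by linarith) hd
    have h4 : ‖h c ^ d‖ - ‖c‖ ≤ ‖h c ^ d + c‖ := by
      have := norm_sub_le (h c ^ d + c) c
      rw [add_sub_cancel_right] at this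
      linarith
    rw [norm_pow] at h4
    nlinarith

theorem pow_ge {d : ℕ} (hd : 8 ≤ d) : (25 : ℝ) < (1 + 5 / d) ^ d := by
  have hdR : (8 : ℝ) ≤ d := by exact_mod_cast hd
  have hd0 : (0 : ℝ) < d := by linarith
  have h1 := Real.le_log_one_add_of_nonneg (x := 5 / (d : ℝ)) (by positivity)
  have h2 : (38 / 10 : ℝ) ≤ d * Real.log (1 + 5 / d) := by
    have h3 : (38 / 10 : ℝ) ≤ d * (2 * (5 / d) / (5 / d + 2)) := by
      have h4 : (d : ℝ) * (2 * (5 / d) / (5 / d + 2)) = 10 * d / (5 + 2 * d) := by field_simp; ring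
      rw [h4, le_div_iff₀ (by positivity)]
      linarith
    exact h3.trans (by gcongr)
  have h5 : Real.exp (38 / 10) ≤ (1 + 5 / d) ^ d := by
    rw [← Real.exp_log (show (0 : ℝ) < 1 + 5 / d by positivity), ← Real.exp_nat_mul]
    exact Real.exp_le_exp.mpr h2
  have h6 : (25 : ℝ) < Real.exp (38 / 10) := by
    have h7 : Real.exp (38 / 10) = Real.exp 1 ^ 3 * Real.exp (8 / 10) := by
      rw [← Real.exp_nat_mul, ← Real.exp_add]; norm_num
    have h8 := Real.add_one_le_exp (8 / 10 : ℝ)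
    have h9 := Real.exp_one_gt_d9
    have h10 : (2.7 : ℝ) ^ 3 ≤ Real.exp 1 ^ 3 := pow_le_pow_left₀ (by norm_num) (by linarith) 3
    rw [h7]
    nlinarith [Real.exp_pos (8 / 10 : ℝ)]
  linarith

theorem norm_le_of_mem_Sh {d : ℕ} (hd : 8 ≤ d) {m : ℕ} {h : ℂ → ℂ} {c : ℂ}
    (hc : c ∈ Sh d (m + 1) h) : ‖h c‖ ≤ 1 + 5 / d := by
  have hdR : (8 : ℝ) ≤ d := by exact_mod_cast hd
  by_contra hcon
  push Not at hcon
  have h1 : (25 : ℝ) < ‖h c‖ ^ d :=
    (pow_ge hd).trans (pow_lt_pow_left₀ hcon (by positivity) (by omega))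
  have h2 : 22 < ‖(fun c => h c ^ d + c) c‖ := by
    have h4 : ‖h c ^ d‖ - ‖c‖ ≤ ‖h c ^ d + c‖ := by
      have := norm_sub_le (h c ^ d + c) c
      rw [add_sub_cancel_right] at this
      linarith
    rw [norm_pow] at h4
    have := hc.1
    simp only
    linarith
  have h3 := escape (d := d) (h := fun c => h c ^ d + c) (by omega) m hc.1 h2
  have h4 := hc.2
  rw [It_succ] at h4
  linarith

theorem deriv_step {d : ℕ} {h : ℂ → ℂ} (hh : Differentiable ℂ h) (c : ℂ) :
    deriv (fun c => h c ^ d + c) c = d * h c ^ (d - 1) * deriv h c + 1 :=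
  (((hh c).hasDerivAt.pow d).add (hasDerivAt_id c)).deriv

theorem norm_deriv_step {d : ℕ} {h : ℂ → ℂ} (hh : Differentiable ℂ h) (c : ℂ) :
    ‖deriv (fun c => h c ^ d + c) c‖ ≤ d * ‖h c‖ ^ (d - 1) * ‖deriv h c‖ + 1 := by
  rw [deriv_step hh]
  refine (norm_add_le _ _).trans ?_
  rw [norm_mul, norm_mul, norm_pow, Complex.norm_natCast, norm_one]

/-- the growth rate -/
noncomputable def lam (d : ℕ) : ℝ :=
  55 * 12000 * (45 * Real.pi + 17952000 * Real.pi ^ 2) * Real.log d ^ 2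

theorem log_ge {d : ℕ} (hd : 8 ≤ d) : (2 : ℝ) ≤ Real.log d := by
  have hdR : (8 : ℝ) ≤ d := by exact_mod_cast hd
  have h14 : Real.log 8 ≤ Real.log d := Real.log_le_log (by norm_num) hdR
  have h15 : Real.log 8 = 3 * Real.log 2 := by
    rw [show (8 : ℝ) = 2 ^ 3 by norm_num, Real.log_pow]; norm_num
  have := Real.log_two_gt_d9
  linarith

theorem lam_ge {d : ℕ} (hd : 8 ≤ d) : 55 ≤ lam d := by
  unfold lam
  have h1 := log_ge hd
  have hpi := Real.pi_gt_three
  have h2 : (4 : ℝ) ≤ Real.log d ^ 2 := by nlinarith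
  have h3 : (1 : ℝ) ≤ 12000 * (45 * Real.pi + 17952000 * Real.pi ^ 2) := by nlinarith
  nlinarith

theorem rpow_bound {d : ℕ} (hd : 8 ≤ d) : (405 * (d : ℝ)) ^ (1 / Real.log d) ≤ 55 := by
  have hdR : (8 : ℝ) ≤ d := by exact_mod_cast hd
  have h1 := log_ge hd
  rw [Real.rpow_def_of_pos (by positivity)]
  have h2 : Real.log (405 * d) ≤ 4 * Real.log d := by
    have h3 : 4 * Real.log (d : ℝ) = Real.log ((d : ℝ) ^ 4) := by rw [Real.log_pow]; norm_num
    rw [h3]
    apply Real.log_le_log (by positivity)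
    have h4 : (8 : ℝ) ^ 3 ≤ (d : ℝ) ^ 3 := pow_le_pow_left₀ (by norm_num) hdR 3
    nlinarith
  have h5 : Real.log (405 * d) * (1 / Real.log d) ≤ 4 := by
    rw [mul_one_div, div_le_iff₀ (by linarith)]
    exact h2
  have h6 : Real.exp 4 = Real.exp 1 ^ 4 := by rw [← Real.exp_nat_mul]; norm_num
  calc Real.exp (Real.log (405 * d) * (1 / Real.log d)) ≤ Real.exp 4 := Real.exp_le_exp.mpr h5
    _ ≤ 55 := by
      rw [h6]
      have h7 := Real.exp_one_lt_d9
      have h8 : Real.exp 1 ^ 4 ≤ (2.7182818286 : ℝ) ^ 4 :=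
        pow_le_pow_left₀ (Real.exp_pos 1).le (by linarith) 4
      refine h8.trans ?_
      norm_num

/-- The main claim. -/
def Claim (d m : ℕ) : Prop := ∀ (h : ℂ → ℂ) (c0 : ℂ) (r A : ℝ), Differentiable ℂ h → 0 < r →
  1 ≤ A → A * r ≤ 1 → (∀ c ∈ ball c0 (2 * r), ‖deriv h c‖ ≤ A) →
  II d m h (ball c0 r) ≤ ENNReal.ofReal (Real.pi * lam d ^ m * r * (A * r) ^ (1 / Real.log d))

theorem claim_zero {d : ℕ} (hd : 8 ≤ d) : Claim d 0 := by
  intro h c0 r A hh hr hA hAr hder
  have hpi := Real.pi_pos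
  have hL := log_ge hd
  have hAr0 : 0 < A * r := mul_pos (by linarith) hr
  unfold II
  have h1 : ∫⁻ c in ball c0 r ∩ Sh d 0 h, ENNReal.ofReal ‖deriv (It d 0 h) c‖ ≤
      ∫⁻ _ in ball c0 r, ENNReal.ofReal A := by
    refine (lintegral_mono_set inter_subset_left).trans ?_
    apply setLIntegral_mono' measurableSet_ball
    intro c hc
    apply ENNReal.ofReal_le_ofReal
    rw [It_zero]
    apply hder
    rw [mem_ball] at hc ⊢
    linarith
  refine h1.trans ?_
  rw [setLIntegral_const, Complex.volume_ball]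
  have h3 : (NNReal.pi : ENNReal) = ENNReal.ofReal Real.pi := by
    rw [← NNReal.coe_real_pi, ENNReal.ofReal_coe_nnreal]
  rw [h3, ← ENNReal.ofReal_pow hr.le, ← ENNReal.ofReal_mul (by positivity),
    ← ENNReal.ofReal_mul (by linarith)]
  apply ENNReal.ofReal_le_ofReal
  rw [pow_zero, mul_one]
  have h4 : A * r ≤ (A * r) ^ (1 / Real.log d) := by
    conv_lhs => rw [← Real.rpow_one (A * r)]
    apply Real.rpow_le_rpow_of_exponent_ge hAr0 hAr
    rw [div_le_one (by linarith)]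
    linarith
  calc A * (r ^ 2 * Real.pi) = Real.pi * r * (A * r) := by ring
    _ ≤ _ := by gcongr

theorem claim_small {d m : ℕ} (hd : 8 ≤ d) (ih : Claim d m) {h : ℂ → ℂ} {c0 : ℂ} {r A : ℝ}
    (hh : Differentiable ℂ h) (hr : 0 < r) (hA : 1 ≤ A)
    (hder : ∀ c ∈ ball c0 (2 * r), ‖deriv h c‖ ≤ A) (hs : A * r ≤ 1 / (405 * d)) :
    II d (m + 1) h (ball c0 r) ≤
      ENNReal.ofReal (Real.pi * lam d ^ (m + 1) * r * (A * r) ^ (1 / Real.log d)) := by
  have hpi := Real.pi_pos
  have hL := log_ge hd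
  have hdR : (8 : ℝ) ≤ d := by exact_mod_cast hd
  have hd0 : (0 : ℝ) < d := by linarith
  have hA0 : 0 < A := by linarith
  have hAr0 : 0 < A * r := mul_pos hA0 hr
  by_cases hne : (ball c0 r ∩ Sh d (m + 1) h).Nonempty
  · obtain ⟨c1, hc1, hc1S⟩ := hne
    have h1 := norm_le_of_mem_Sh hd hc1S
    have h2 : ∀ c ∈ ball c0 (2 * r), ‖h c‖ ≤ 1 + 6 / d := by
      intro c hc
      have hc1' : c1 ∈ ball c0 (2 * r) := by
        rw [mem_ball] at hc1 ⊢
        linarith
      have h3 : ‖h c - h c1‖ ≤ A * ‖c - c1‖ :=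
        (convex_ball c0 (2 * r)).norm_image_sub_le_of_norm_deriv_le (fun z _ => hh z) hder hc1' hc
      have h4 : ‖c - c1‖ ≤ 3 * r := by
        rw [mem_ball, dist_eq_norm] at hc hc1
        have := norm_sub_le (c - c0) (c1 - c0)
        rw [sub_sub_sub_cancel_right] at this
        linarith
      have h5 : A * ‖c - c1‖ ≤ 3 * (1 / (405 * d)) := by
        calc A * ‖c - c1‖ ≤ A * (3 * r) := by gcongr
          _ = 3 * (A * r) := by ring
          _ ≤ _ := by gcongr
      have h6 : 3 * (1 / (405 * (d : ℝ))) ≤ 1 / d := by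
        rw [mul_one_div, div_le_div_iff₀ (by positivity) hd0]
        linarith
      have h7 := norm_sub_norm_le (h c) (h c1)
      have h8 : 1 + 5 / (d : ℝ) + 1 / d = 1 + 6 / d := by ring
      linarith
    have h9 : (1 + 6 / (d : ℝ)) ^ (d - 1) ≤ 404 := by
      have h10 : (1 + 6 / (d : ℝ)) ^ (d - 1) ≤ (1 + 6 / (d : ℝ)) ^ d :=
        pow_le_pow_right₀ (by have : 0 < 6 / (d : ℝ) := by positivity
                              linarith) (by omega)
      have h11 : (1 + 6 / (d : ℝ)) ^ d ≤ Real.exp 6 := by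
        have h12 : (1 + 6 / (d : ℝ)) ≤ Real.exp (6 / d) := by
          linarith [Real.add_one_le_exp (6 / (d : ℝ))]
        calc (1 + 6 / (d : ℝ)) ^ d ≤ Real.exp (6 / d) ^ d := pow_le_pow_left₀ (by positivity) h12 d
          _ = Real.exp 6 := by rw [← Real.exp_nat_mul]; congr 1; field_simp
      have h13 : Real.exp 6 = Real.exp 1 ^ 6 := by rw [← Real.exp_nat_mul]; norm_num
      have h14 : Real.exp 1 ^ 6 ≤ (2.7182818286 : ℝ) ^ 6 :=
        pow_le_pow_left₀ (Real.exp_pos 1).le (by linarith [Real.exp_one_lt_d9]) 6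
      rw [h13] at h11
      refine h10.trans (h11.trans (h14.trans ?_))
      norm_num
    have h15 := ih (fun c => h c ^ d + c) c0 r (405 * d * A) ((hh.pow d).add differentiable_id) hr
      (by nlinarith) (by
        have : 405 * (d : ℝ) * (A * r) ≤ 405 * d * (1 / (405 * d)) := by gcongr
        have h16 : 405 * (d : ℝ) * (1 / (405 * d)) = 1 := by field_simp
        linarith) (by
        intro c hc
        refine (norm_deriv_step hh c).trans ?_
        have h16 : ‖h c‖ ^ (d - 1) ≤ 404 :=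
          (pow_le_pow_left₀ (norm_nonneg _) (h2 c hc) _).trans h9
        have h17 : d * ‖h c‖ ^ (d - 1) * ‖deriv h c‖ ≤ d * 404 * A := by
          gcongr
          exact hder c hc
        have h18 : 1 ≤ (d : ℝ) * A := by nlinarith
        nlinarith)
    have h16 : II d (m + 1) h (ball c0 r) = II d m (fun c => h c ^ d + c) (ball c0 r) := rfl
    rw [h16]
    refine h15.trans ?_
    apply ENNReal.ofReal_le_ofReal
    have h17 : (405 * (d : ℝ) * A * r) ^ (1 / Real.log d) =
        (405 * (d : ℝ)) ^ (1 / Real.log d) * (A * r) ^ (1 / Real.log d) := by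
      rw [mul_assoc, Real.mul_rpow (by positivity) hAr0.le]
    rw [h17]
    have h18 := rpow_bound hd
    have h19 := lam_ge hd
    have h20 : 0 < (A * r) ^ (1 / Real.log d) := Real.rpow_pos_of_pos hAr0 _
    have h21 : 0 < lam d := by linarith
    calc Real.pi * lam d ^ m * r * ((405 * (d : ℝ)) ^ (1 / Real.log d) * (A * r) ^ (1 / Real.log d))
        ≤ Real.pi * lam d ^ m * r * (lam d * (A * r) ^ (1 / Real.log d)) := by
          gcongr
          exact h18.trans h19
      _ = _ := by ring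
  · rw [not_nonempty_iff_eq_empty] at hne
    unfold II
    rw [hne, Measure.restrict_empty, lintegral_zero_measure]
    exact zero_le

/-- The key derivative bound for the large case. -/
theorem SU.key {d : ℕ} {h : ℂ → ℂ} {c0 : ℂ} {r A : ℝ} {p : Polynomial ℂ}
    (su : SU d h c0 r A p) {c : ℂ} (hc : c ∈ TT d h c0 r p) {z : ℂ}
    (hz : z ∈ ball c (2 * (kap / qq d h r A p c))) :
    ‖deriv (fun c => h c ^ d + c) z‖ ≤ qq d h r A p c / kap := by
  have hd0 := su.dpos
  have hd8 := su.d8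
  have hr := su.hr
  have hk : 0 < kap := by unfold kap; norm_num
  have hX := su.X_pos c
  have ha := su.aa_pos c
  have hqt := qt_pos hr p c
  have hqq := su.qq_pos c
  have hcb : c ∈ ball c0 (13 / 10 * r) := by
    have := hc.1.1
    rw [mem_ball] at this ⊢
    linarith
  have hZ : ∀ ζ ∈ p.roots, c ≠ ζ := by
    intro ζ hζ he
    exact hc.2 (by rw [he]; exact hζ)
  rw [mem_ball, dist_eq_norm] at hz
  have hrho : kap / qq d h r A p c ≤ kap / qt r p c :=
    div_le_div_of_nonneg_left hk.le hqt (su.qt_le_qq c)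
  obtain ⟨-, -, h1, -⟩ := su.near hcb hZ (c := z) (by linarith)
  obtain ⟨h2, -⟩ := su.near_h hcb hZ (c := z) two_pos le_rfl hz
  have h3 : ‖h c‖ ≤ 1 + 6 / d := hc.1.2
  have h4 := norm_sub_norm_le (h z) (h c)
  have h5 : d * ‖h z‖ ^ (d - 1) ≤ 1500 * (1 / d + xx h c)⁻¹ := by
    rw [← div_eq_mul_inv, le_div_iff₀ hX]
    by_cases hcase : 1 ≤ ‖h c‖
    · have hx : xx h c = 0 := by unfold xx; rw [max_eq_left (by linarith)]
      rw [hx, add_zero] at h2 ⊢
      have h6 : ‖h z‖ ≤ 1 + 7 / d := by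
        have h7 : 2 / 1000 * (1 / (d : ℝ)) ≤ 1 / d := by
          have : 0 < 1 / (d : ℝ) := by positivity
          linarith
        have h8 : 1 + 6 / (d : ℝ) + 1 / d = 1 + 7 / d := by ring
        linarith
      have h9 : ‖h z‖ ^ (d - 1) ≤ Real.exp 7 := by
        have h10 : ‖h z‖ ≤ Real.exp (7 / d) := by linarith [Real.add_one_le_exp (7 / (d : ℝ))]
        have h11 : (1 : ℝ) ≤ Real.exp (7 / d) := Real.one_le_exp (by positivity)
        calc ‖h z‖ ^ (d - 1) ≤ Real.exp (7 / d) ^ (d - 1) := pow_le_pow_left₀ (norm_nonneg _) h10 _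
          _ ≤ Real.exp (7 / d) ^ d := pow_le_pow_right₀ h11 (by omega)
          _ = Real.exp 7 := by rw [← Real.exp_nat_mul]; congr 1; field_simp
      have h12 : Real.exp 7 = Real.exp 1 ^ 7 := by rw [← Real.exp_nat_mul]; norm_num
      have h13 : Real.exp 1 ^ 7 ≤ (2.7182818286 : ℝ) ^ 7 :=
        pow_le_pow_left₀ (Real.exp_pos 1).le (by linarith [Real.exp_one_lt_d9]) 7
      have h14 : (2.7182818286 : ℝ) ^ 7 ≤ 1500 := by norm_num
      calc (d : ℝ) * ‖h z‖ ^ (d - 1) * (1 / d) = ‖h z‖ ^ (d - 1) := by field_simp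
        _ ≤ 1500 := by rw [h12] at h9; linarith
    · push Not at hcase
      have hx : xx h c = 1 - ‖h c‖ := by unfold xx; rw [max_eq_right (by linarith)]
      set x := xx h c with hxd
      have hx0 : 0 ≤ x := xx_nonneg h c
      have h6 : ‖h z‖ ≤ 1 / (500 * d) - 499 / 500 * x + 1 := by
        have h7 : 2 / 1000 * (1 / (d : ℝ) + x) = 1 / (500 * d) + x / 500 := by field_simp; ring
        rw [h7] at h2
        linarith
      have h7 : ‖h z‖ ≤ Real.exp (1 / (500 * d) - 499 / 500 * x) :=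
        h6.trans (Real.add_one_le_exp _)
      have h8 : ‖h z‖ ^ (d - 1) ≤ Real.exp (1 - d * x / 2) := by
        calc ‖h z‖ ^ (d - 1) ≤ Real.exp (1 / (500 * d) - 499 / 500 * x) ^ (d - 1) :=
              pow_le_pow_left₀ (norm_nonneg _) h7 _
          _ = Real.exp (((d - 1 : ℕ) : ℝ) * (1 / (500 * d) - 499 / 500 * x)) := by
              rw [← Real.exp_nat_mul]
          _ ≤ _ := by
              apply Real.exp_le_exp.mpr
              have h9 : ((d - 1 : ℕ) : ℝ) = d - 1 := by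
                rw [Nat.cast_sub (by have := su.hd; omega)]; simp
              rw [h9]
              have h10 : ((d : ℝ) - 1) * (1 / (500 * d)) ≤ 1 := by
                rw [mul_one_div, div_le_one (by positivity)]
                linarith
              have h11 : (d : ℝ) * x / 2 ≤ (d - 1) * (499 / 500 * x) := by nlinarith
              nlinarith
      have h12 : 1 + (d : ℝ) * x ≤ 2 * Real.exp (d * x / 2) := by
        have := Real.add_one_le_exp ((d : ℝ) * x / 2)
        linarith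
      have h13 : (d : ℝ) * ‖h z‖ ^ (d - 1) * (1 / d + x) = (1 + d * x) * ‖h z‖ ^ (d - 1) := by
        field_simp
      rw [h13]
      calc (1 + (d : ℝ) * x) * ‖h z‖ ^ (d - 1)
          ≤ (2 * Real.exp (d * x / 2)) * Real.exp (1 - d * x / 2) := by gcongr
        _ = 2 * Real.exp 1 := by
            rw [mul_assoc, ← Real.exp_add]; congr 2; ring
        _ ≤ 1500 := by linarith [Real.exp_one_lt_d9]
  refine (norm_deriv_step su.hh z).trans ?_
  have h6 : qq d h r A p c / kap = 2000 * qt r p c + 2000 * (aa d A p c * (1 / d + xx h c)⁻¹) := by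
    unfold qq kap; ring
  rw [h6]
  have h7 : d * ‖h z‖ ^ (d - 1) * ‖deriv h z‖ ≤
      1500 * (1 / d + xx h c)⁻¹ * (17 / 16 * aa d A p c) := by gcongr
  have h8 : 0 < aa d A p c * (1 / d + xx h c)⁻¹ := by positivity
  have h9 : 1 ≤ qt r p c := by
    refine le_trans ?_ (qt_ge p c)
    rw [le_div_iff₀ hr]
    nlinarith [su.hAr, su.hA]
  nlinarith

end Pool.Agent.H32MB
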