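import Mathlib
import Pool.Agent.H32MB.Step

set_option autoImplicit false

open MeasureTheory Metric Set

namespace Pool.Agent.H32MB

/-- Choice of the Taylor polynomial. -/
theorem exists_SU {d : ℕ} (hd : 8 ≤ d) {h : ℂ → ℂ} {c0 : ℂ} {r A : ℝ}
    (hh : Differentiable ℂ h) (hr : 0 < r) (hA : 1 ≤ A) (hAr : A * r ≤ 1)
    (hder : ∀ c ∈ ball c0 (2 * r), ‖deriv h c‖ ≤ A) :
    ∃ p : Polynomial ℂ, SU d h c0 r A p ∧ (p.roots.card : ℝ) ≤ 12 * Real.log d := by
  have hL := log_ge hd
  have hdR : (8 : ℝ) ≤ d := by exact_mod_cast hd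
  have hd0 : (0 : ℝ) < d := by linarith
  have hA0 : 0 < A := by linarith
  set N : ℕ := ⌈11 * Real.log d⌉₊ with hN
  obtain ⟨p, hp1, hp2⟩ := taylor_approx (F := deriv h) (fun z => (hh.analyticAt z).deriv.differentiableAt)
    hr hder N
  refine ⟨p, ⟨hd, hh, hr, hA, hAr, hder, fun c hc => (hp2 c hc).trans ?_⟩, ?_⟩
  · have h1 : (64 * (d : ℝ)) * (3 / 4) ^ (N + 1) ≤ 1 := by
      have h2 : (11 : ℝ) * Real.log d ≤ ((N + 1 : ℕ) : ℝ) := by
        push_cast
        have := Nat.le_ceil (11 * Real.log d)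
        linarith
      have h3 := Real.le_log_one_add_of_nonneg (x := 1 / 3) (by norm_num)
      have h4 : (2 / 7 : ℝ) ≤ Real.log (4 / 3) := by
        norm_num at h3 ⊢
        linarith
      have h5 : (3 / 4 : ℝ) ^ (N + 1) = Real.exp (-(((N + 1 : ℕ) : ℝ) * Real.log (4 / 3))) := by
        rw [Real.exp_neg, Real.exp_nat_mul, Real.exp_log (by norm_num), ← inv_pow]
        norm_num
      have h6 : 3 * Real.log d ≤ ((N + 1 : ℕ) : ℝ) * Real.log (4 / 3) := by
        calc 3 * Real.log d ≤ (11 * Real.log d) * (2 / 7) := by linarith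
          _ ≤ _ := by gcongr
      have h7 : Real.exp (-(((N + 1 : ℕ) : ℝ) * Real.log (4 / 3))) ≤ Real.exp (-(3 * Real.log d)) :=
        Real.exp_le_exp.mpr (by linarith)
      have h8 : Real.exp (-(3 * Real.log d)) = ((d : ℝ) ^ 3)⁻¹ := by
        rw [Real.exp_neg]
        congr 1
        have : 3 * Real.log (d : ℝ) = ((3 : ℕ) : ℝ) * Real.log d := by norm_num
        rw [this, Real.exp_nat_mul, Real.exp_log hd0]
      rw [h5]
      rw [h8] at h7
      calc (64 * (d : ℝ)) * Real.exp (-(((N + 1 : ℕ) : ℝ) * Real.log (4 / 3)))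
          ≤ (64 * (d : ℝ)) * ((d : ℝ) ^ 3)⁻¹ := by gcongr
        _ ≤ 1 := by
          rw [← div_eq_mul_inv, div_le_one (by positivity)]
          have h9 : (64 : ℝ) ≤ (d : ℝ) ^ 2 := by nlinarith
          nlinarith
    rw [le_div_iff₀ (by positivity)]
    nlinarith
  · have h1 : (p.roots.card : ℝ) ≤ p.natDegree := by exact_mod_cast p.card_roots'
    have h2 : (p.natDegree : ℝ) ≤ N := by exact_mod_cast hp1
    have h3 : (N : ℝ) < 11 * Real.log d + 1 := Nat.ceil_lt_add_one (by positivity)
    linarith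

theorem claim_large {d m : ℕ} (hd : 8 ≤ d) (ih : Claim d m) {h : ℂ → ℂ} {c0 : ℂ} {r A : ℝ}
    (hh : Differentiable ℂ h) (hr : 0 < r) (hA : 1 ≤ A) (hAr : A * r ≤ 1)
    (hder : ∀ c ∈ ball c0 (2 * r), ‖deriv h c‖ ≤ A) (hs : 1 / (405 * d) < A * r) :
    II d (m + 1) h (ball c0 r) ≤
      ENNReal.ofReal (Real.pi * lam d ^ (m + 1) * r * (A * r) ^ (1 / Real.log d)) := by
  have hpi := Real.pi_pos
  have hL := log_ge hd
  have hdR : (8 : ℝ) ≤ d := by exact_mod_cast hd
  have hd0 : (0 : ℝ) < d := by linarith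
  have hA0 : 0 < A := by linarith
  have hAr0 : 0 < A * r := mul_pos hA0 hr
  have hk : 0 < kap := by unfold kap; norm_num
  have hlam := lam_ge hd
  have hlam0 : 0 < lam d := by linarith
  obtain ⟨p, su, hcard⟩ := exists_SU hd hh hr hA hAr hder
  set Φ : ℂ → ENNReal := fun c => ENNReal.ofReal ‖deriv (It d (m + 1) h) c‖ with hΦ
  have hΦm : Measurable Φ := ENNReal.measurable_ofReal.comp (measurable_deriv _).norm
  set S : Set ℂ := (ball c0 r ∩ Sh d (m + 1) h) \ {c | c ∈ p.roots} with hS
  have hSm : MeasurableSet S :=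
    (measurableSet_ball.inter (Sh_measurable d (m + 1) hh)).diff (roots_measurable p)
  have hnull : volume {c | c ∈ p.roots} = 0 := by
    have : {c | c ∈ p.roots} = (p.roots.toFinset : Set ℂ) := by
      ext c; simp
    rw [this]
    exact (Finset.finite_toSet _).measure_zero _
  have h1 : II d (m + 1) h (ball c0 r) = ∫⁻ c in S, Φ c := by
    unfold II
    apply setLIntegral_congr
    exact (sdiff_null_ae_eq_self hnull).symm
  have hav := averaging hΦm (ρ := fun c => kap / qq d h r A p c)
    (measurable_const.div (qq_measurable hh r A p)) hSm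
    (TT_measurable (d := d) (c0 := c0) (r := r) (p := p) hh)
    (fun c _ => div_pos hk (su.qq_pos c)) (by
      intro c' hc' c hcc
      have hb' : ‖c' - c0‖ < r := by
        have := hc'.1.1
        rwa [mem_ball, dist_eq_norm] at this
      have hb : c' ∈ ball c0 (13 / 10 * r) := by
        rw [mem_ball, dist_eq_norm]
        linarith
      have hZ : ∀ ζ ∈ p.roots, c' ≠ ζ := by
        intro ζ hζ he
        exact hc'.2 (by rw [he]; exact hζ)
      rw [dist_eq_norm] at hcc
      have hqt := qt_pos hr p c'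
      have hrho : kap / qq d h r A p c' ≤ kap / qt r p c' :=
        div_le_div_of_nonneg_left hk.le hqt (su.qt_le_qq c')
      have h0 : 0 < kap / qq d h r A p c' := div_pos hk (su.qq_pos c')
      obtain ⟨h2, h3⟩ := su.compare hb hZ hcc
      obtain ⟨h4, -, -, -, -, h5⟩ := su.near hb hZ (c := c) (by linarith)
      obtain ⟨h6, -⟩ := su.near_h hb hZ (c := c) (t := 1 / 2) (by norm_num) (by norm_num)
        (by linarith)
      refine ⟨⟨⟨?_, ?_⟩, ?_⟩, h2, h3⟩
      · rw [mem_ball, dist_eq_norm]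
        have h7 := norm_add_le (c - c') (c' - c0)
        rw [sub_add_sub_cancel] at h7
        linarith
      · change ‖h c‖ ≤ 1 + 6 / d
        have h7 := norm_le_of_mem_Sh hd hc'.1.2
        have h8 := norm_sub_norm_le (h c) (h c')
        have h9 : 0 < 1 / (d : ℝ) := by positivity
        have h10 : 1 + 5 / (d : ℝ) + 1 / d = 1 + 6 / d := by ring
        by_cases hcase : 1 ≤ ‖h c'‖
        · have hx : xx h c' = 0 := by unfold xx; rw [max_eq_left (by linarith)]
          rw [hx] at h6
          linarith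
        · push Not at hcase
          have hx : xx h c' = 1 - ‖h c'‖ := by unfold xx; rw [max_eq_right (by linarith)]
          rw [hx] at h6
          have h11 : 6 / (d : ℝ) = 6 * (1 / d) := by ring
          rw [h11]
          linarith
      · intro hc
        exact h5 c hc rfl)
  have hinner : ∀ c ∈ TT d h c0 r p, ENNReal.ofReal (((kap / qq d h r A p c) ^ 2)⁻¹) *
      ∫⁻ c' in ball c (kap / qq d h r A p c) ∩ S, Φ c' ≤
      ENNReal.ofReal (Real.pi * lam d ^ m * 2000) * ENNReal.ofReal (qq d h r A p c) := by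
    intro c hc
    have hqq := su.qq_pos c
    have hqt1 : 1 / r ≤ qq d h r A p c := (qt_ge p c).trans (su.qt_le_qq c)
    set ρ : ℝ := kap / qq d h r A p c with hρ
    have hρ0 : 0 < ρ := div_pos hk hqq
    have hr1 : r ≤ 1 := by nlinarith
    have hq1 : 1 ≤ qq d h r A p c := by
      refine le_trans ?_ hqt1
      rw [le_div_iff₀ hr]; linarith
    have h2 : qq d h r A p c / kap * ρ = 1 := by rw [hρ]; field_simp
    have h3 := ih (fun c => h c ^ d + c) c ρ (qq d h r A p c / kap)
      ((hh.pow d).add differentiable_id) hρ0 (by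
        rw [le_div_iff₀ hk]; unfold kap; linarith) h2.le
      (fun z hz => su.key hc hz)
    rw [h2, Real.one_rpow, mul_one] at h3
    have h4 : ∫⁻ c' in ball c ρ ∩ S, Φ c' ≤ II d m (fun c => h c ^ d + c) (ball c ρ) := by
      unfold II
      apply lintegral_mono_set
      intro z hz
      exact ⟨hz.1, hz.2.1.2⟩
    calc ENNReal.ofReal ((ρ ^ 2)⁻¹) * ∫⁻ c' in ball c ρ ∩ S, Φ c'
        ≤ ENNReal.ofReal ((ρ ^ 2)⁻¹) * ENNReal.ofReal (Real.pi * lam d ^ m * ρ) := by
          gcongr
          exact h4.trans h3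
      _ = _ := by
        rw [← ENNReal.ofReal_mul (by positivity), ← ENNReal.ofReal_mul (by positivity)]
        congr 1
        have h8 : qq d h r A p c = kap / ρ := by rw [hρ]; field_simp
        rw [h8]
        unfold kap
        field_simp
  rw [h1]
  refine hav.trans ?_
  calc 6 * ∫⁻ c in TT d h c0 r p, ENNReal.ofReal (((kap / qq d h r A p c) ^ 2)⁻¹) *
        ∫⁻ c' in ball c (kap / qq d h r A p c) ∩ S, Φ c'
      ≤ 6 * ∫⁻ c in TT d h c0 r p, ENNReal.ofReal (Real.pi * lam d ^ m * 2000) *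
          ENNReal.ofReal (qq d h r A p c) := by
        gcongr 1
        exact setLIntegral_mono' (TT_measurable hh) hinner
    _ ≤ 6 * (ENNReal.ofReal (Real.pi * lam d ^ m * 2000) *
        ENNReal.ofReal ((45 * Real.pi + 17952000 * Real.pi ^ 2) * Real.log d ^ 2 * r)) := by
        rw [lintegral_const_mul' _ _ ENNReal.ofReal_ne_top]
        gcongr
        exact su.qq_int hcard hL
    _ = ENNReal.ofReal (Real.pi * lam d ^ m * (lam d / 55) * r) := by
        have h6 : (6 : ENNReal) = ENNReal.ofReal 6 := by simp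
        rw [h6, ← ENNReal.ofReal_mul (by positivity), ← ENNReal.ofReal_mul (by norm_num)]
        congr 1
        have h7 : lam d / 55 = 12000 * (45 * Real.pi + 17952000 * Real.pi ^ 2) * Real.log d ^ 2 := by
          unfold lam; ring
        rw [h7]
        ring
    _ ≤ _ := by
        apply ENNReal.ofReal_le_ofReal
        have h8 : 1 / 55 ≤ (A * r) ^ (1 / Real.log d) := by
          have h9 : (1 / (405 * (d : ℝ))) ^ (1 / Real.log d) ≤ (A * r) ^ (1 / Real.log d) := by
            apply Real.rpow_le_rpow (by positivity) hs.le (by positivity)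
          refine le_trans ?_ h9
          rw [one_div (405 * (d : ℝ)), Real.inv_rpow (by positivity), one_div]
          exact inv_anti₀ (by positivity) (rpow_bound hd)
        calc Real.pi * lam d ^ m * (lam d / 55) * r = Real.pi * lam d ^ (m + 1) * r * (1 / 55) := by ring
          _ ≤ _ := by gcongr

theorem claim_all {d : ℕ} (hd : 8 ≤ d) (m : ℕ) : Claim d m := by
  induction m with
  | zero => exact claim_zero hd
  | succ m ih =>
    intro h c0 r A hh hr hA hAr hder
    by_cases hcase : A * r ≤ 1 / (405 * d)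
    · exact claim_small hd ih hh hr hA hder hcase
    · exact claim_large hd ih hh hr hA hAr hder (not_le.mp hcase)

theorem lintegral_finset_union_le (t : Finset ℂ) (s : ℂ → Set ℂ) (f : ℂ → ENNReal) :
    ∫⁻ c in ⋃ i ∈ t, s i, f c ≤ ∑ i ∈ t, ∫⁻ c in s i, f c := by
  classical
  induction t using Finset.induction_on with
  | empty => simp
  | insert a t ha ih =>
    rw [Finset.set_biUnion_insert, Finset.sum_insert ha]
    exact (lintegral_union_le _ _ _).trans (add_le_add le_rfl ih)

/-- Global bound. -/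
theorem global_bound : ∃ M : ℝ, 0 < M ∧ ∀ d : ℕ, 8 ≤ d → ∀ m : ℕ,
    ∫⁻ c in Sh d m id, ENNReal.ofReal ‖deriv (It d m id) c‖ ≤ ENNReal.ofReal (M * lam d ^ m) := by
  obtain ⟨t, ht⟩ := (isCompact_closedBall (0 : ℂ) 3).elim_finite_subcover (fun c : ℂ => ball c 1)
    (fun _ => isOpen_ball) (fun c _ => mem_iUnion.mpr ⟨c, mem_ball_self one_pos⟩)
  refine ⟨(t.card + 1) * Real.pi, by positivity, fun d hd m => ?_⟩
  have hlam := lam_ge hd
  have hlam0 : 0 < lam d := by linarith
  have h1 : ∀ c0 : ℂ, II d m id (ball c0 1) ≤ ENNReal.ofReal (Real.pi * lam d ^ m) := by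
    intro c0
    have h2 := claim_all hd m id c0 1 1 differentiable_id one_pos le_rfl (by norm_num) (by
      intro c _
      rw [deriv_id, norm_one])
    simpa using h2
  have h3 : Sh d m id ⊆ ⋃ c ∈ t, (ball c 1 ∩ Sh d m id) := by
    intro c hc
    have h4 : c ∈ closedBall (0 : ℂ) 3 := by rw [mem_closedBall_zero_iff]; exact hc.1
    have h5 := ht h4
    rw [mem_iUnion₂] at h5 ⊢
    obtain ⟨i, hi, h6⟩ := h5
    exact ⟨i, hi, h6, hc⟩
  refine (lintegral_mono_set h3).trans ((lintegral_finset_union_le _ _ _).trans ?_)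
  refine (Finset.sum_le_sum fun c0 _ => h1 c0).trans ?_
  rw [Finset.sum_const, nsmul_eq_mul]
  have h7 : (t.card : ENNReal) = ENNReal.ofReal t.card := by simp
  rw [h7, ← ENNReal.ofReal_mul (by positivity)]
  apply ENNReal.ofReal_le_ofReal
  have := Real.pi_pos
  have h8 : 0 < Real.pi * lam d ^ m := by positivity
  nlinarith

end Pool.Agent.H32MB
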