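import Mathlib
import Pool.Agent.H32MB.Main
import Pool.Agent.H713R2.AR.PR
import Pool.Agent.H713R2.Main4

set_option autoImplicit false

open Complex Set Topology Filter Metric Asymptotics MeasureTheory N62a1eb23

namespace Pool.Agent.H32MB

open Pool.Agent.H712R2 Pool.Agent.H713R2 Pool.Agent.H713R2.AR

theorem It_succ' (d m : ℕ) : ∀ (h : ℂ → ℂ) (c : ℂ), It d (m + 1) h c = (It d m h c) ^ d + c := by
  induction m with
  | zero => intro h c; rfl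
  | succ m ih =>
    intro h c
    rw [It_succ, ih, It_succ]

theorem It_eq_P {d : ℕ} (hd : 2 ≤ d) (m : ℕ) : It d m id = P d (m + 1) := by
  funext c
  induction m with
  | zero => rw [It_zero, P_one hd]; rfl
  | succ m ih => rw [It_succ', ih, P_succ d (m + 1)]

theorem BB_close {d : ℕ} (hd : 2 ≤ d) {β : ℂ → ℂ} (hβ : IsBeta d β) (n : ℕ) {x : ℂ}
    (hx : x ∈ ball (0 : ℂ) 1) : ‖BB d β n x - 1‖ ≤ 3 * ‖x‖ ^ (d ^ (n + 1) - 1) := by
  have hK : d ^ (n + 1) - 1 ≠ 0 := by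
    have : 1 < d ^ (n + 1) := Nat.one_lt_pow (by omega) (by omega)
    omega
  obtain ⟨K, hKe⟩ := Nat.exists_eq_succ_of_ne_zero hK
  have h0 : BB d β n 0 = 1 := by rw [BB_at_zero hd, hβ.zero, one_pow]
  have h1 := Complex.dist_le_mul_div_pow_of_mapsTo_ball_of_isLittleO (f := BB d β n) (c := 0)
    (z := x) (R₁ := 1) (R₂ := 3) (n := K) (BB_diff hβ.diff n) ?_ ?_ hx
  · rw [h0, dist_eq_norm, dist_zero_right, ← Nat.succ_eq_add_one, ← hKe, div_one] at h1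
    exact h1
  · intro y hy
    rw [mem_closedBall, h0, dist_eq_norm]
    have := BB_le_two hd hβ n hy
    calc ‖BB d β n y - 1‖ ≤ ‖BB d β n y‖ + ‖(1 : ℂ)‖ := norm_sub_le _ _
      _ ≤ 3 := by rw [norm_one]; linarith
  · rw [h0]
    obtain ⟨C, hC⟩ := hβ.order n
    rw [hKe] at hC
    have h2 : (fun x => BB d β n x - 1) =O[𝓝 0] (fun x : ℂ => x ^ (K + 1)) := by
      apply IsBigO.of_bound C
      filter_upwards [ball_mem_nhds (0 : ℂ) (show (0 : ℝ) < 1 / 2 by norm_num)] with y hy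
      rw [norm_pow]
      exact hC y hy
    refine h2.trans_isLittleO ?_
    have h3 : (fun x : ℂ => x ^ (K + 1)) =o[𝓝 0] (fun x : ℂ => x ^ K) :=
      isLittleO_pow_pow (Nat.lt_succ_self K)
    refine h3.norm_right.congr (fun _ => rfl) (fun x => ?_)
    rw [sub_zero, norm_pow]

/-- Uniform closeness to one. -/
theorem BB_close' {d : ℕ} (hd : 8 ≤ d) {β : ℂ → ℂ} (hβ : IsBeta d β) (n : ℕ) {x : ℂ}
    (hx : ‖x‖ ^ (d ^ n) ≤ 3 / 8) : ‖BB d β n x - 1‖ ≤ 1 / 100 := by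
  have hN : 1 ≤ d ^ n := Nat.one_le_pow _ _ (by omega)
  have hx1 : ‖x‖ < 1 := by
    by_contra hcon
    push Not at hcon
    have := one_le_pow₀ hcon (n := d ^ n)
    linarith
  have h1 := BB_close (by omega) hβ n (x := x) (by rwa [mem_ball_zero_iff])
  have h2 : ‖x‖ ^ (d ^ (n + 1) - 1) ≤ ‖x‖ ^ (d ^ n * 7) := by
    apply pow_le_pow_of_le_one (norm_nonneg _) hx1.le
    rw [pow_succ]
    have : d ^ n * 8 ≤ d ^ n * d := Nat.mul_le_mul_left _ hd
    omega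
  have h3 : ‖x‖ ^ (d ^ n * 7) ≤ (3 / 8 : ℝ) ^ 7 := by
    rw [pow_mul]
    exact pow_le_pow_left₀ (by positivity) hx 7
  calc ‖BB d β n x - 1‖ ≤ 3 * ‖x‖ ^ (d ^ (n + 1) - 1) := h1
    _ ≤ 3 * (3 / 8 : ℝ) ^ 7 := by linarith
    _ ≤ 1 / 100 := by norm_num

theorem BB_deriv {d : ℕ} (hd : 8 ≤ d) {β : ℂ → ℂ} (hβ : IsBeta d β) (n : ℕ) {x : ℂ}
    (hx0 : x ≠ 0) (hx : ‖x‖ ^ (d ^ n) ≤ 1 / 8) :
    ‖x‖ * ‖deriv (BB d β n) x‖ ≤ (d : ℝ) ^ n / 100 := by
  have hN : 1 ≤ d ^ n := Nat.one_le_pow _ _ (by omega)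
  have hNR : (1 : ℝ) ≤ (d : ℝ) ^ n := by exact_mod_cast hN
  have hxn : 0 < ‖x‖ := norm_pos_iff.mpr hx0
  set δ : ℝ := ‖x‖ / (d : ℝ) ^ n with hδ
  have hδ0 : 0 < δ := by positivity
  have hsm : ∀ y ∈ closedBall x δ, ‖y‖ ^ (d ^ n) ≤ 3 / 8 := by
    intro y hy
    rw [mem_closedBall, dist_eq_norm] at hy
    have h1 : ‖y‖ ≤ ‖x‖ * (1 + 1 / (d : ℝ) ^ n) := by
      have := norm_sub_norm_le y x
      have h2 : ‖x‖ * (1 + 1 / (d : ℝ) ^ n) = ‖x‖ + δ := by rw [hδ]; ring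
      rw [h2]; linarith
    have h2 : (1 + 1 / (d : ℝ) ^ n) ^ (d ^ n) ≤ 3 := by
      have h3 : (1 + 1 / (d : ℝ) ^ n) ≤ Real.exp (1 / (d : ℝ) ^ n) := by
        rw [add_comm]; exact Real.add_one_le_exp _
      calc (1 + 1 / (d : ℝ) ^ n) ^ (d ^ n) ≤ Real.exp (1 / (d : ℝ) ^ n) ^ (d ^ n) :=
            pow_le_pow_left₀ (by positivity) h3 _
        _ = Real.exp 1 := by
            rw [← Real.exp_nat_mul]
            congr 1
            push_cast
            field_simp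
        _ ≤ 3 := by have := Real.exp_one_lt_d9; linarith
    calc ‖y‖ ^ (d ^ n) ≤ (‖x‖ * (1 + 1 / (d : ℝ) ^ n)) ^ (d ^ n) :=
          pow_le_pow_left₀ (norm_nonneg _) h1 _
      _ = ‖x‖ ^ (d ^ n) * (1 + 1 / (d : ℝ) ^ n) ^ (d ^ n) := mul_pow _ _ _
      _ ≤ 1 / 8 * 3 := by gcongr
      _ = 3 / 8 := by norm_num
  have hsub : closedBall x δ ⊆ ball 0 1 := by
    intro y hy
    rw [mem_ball_zero_iff]
    by_contra hcon
    push Not at hcon
    have h1 := one_le_pow₀ hcon (n := d ^ n)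
    have h2 := hsm y hy
    linarith
  have hBd : DifferentiableOn ℂ (BB d β n) (ball 0 1) := BB_diff hβ.diff n
  have hdc : DiffContOnCl ℂ (fun y => BB d β n y - 1) (ball x δ) := by
    apply DifferentiableOn.diffContOnCl
    rw [closure_ball _ hδ0.ne']
    exact (hBd.mono hsub).sub_const 1
  have h1 := Complex.norm_deriv_le_of_forall_mem_sphere_norm_le (C := 1 / 100) hδ0 hdc
    (fun y hy => BB_close' hd hβ n (hsm y (sphere_subset_closedBall hy)))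
  rw [deriv_sub_const] at h1
  have h2 : ‖x‖ * (1 / 100 / δ) = (d : ℝ) ^ n / 100 := by
    rw [hδ]; field_simp
  rw [← h2]
  exact mul_le_mul_of_nonneg_left h1 hxn.le

/-- The derivative of the critical orbit along the annulus. -/
theorem deriv_lower {d : ℕ} (hd : 8 ≤ d) {β : ℂ → ℂ} (hβ : IsBeta d β) {n : ℕ} (hn : 1 ≤ n) {x : ℂ}
    (hx1 : 1 / 16 < ‖x‖ ^ (d ^ n)) (hx2 : ‖x‖ ^ (d ^ n) < 1 / 8) :
    2 / 3 ≤ ‖x‖ ∧ ‖x‖ < 1 ∧ x⁻¹ * β x ∈ Sh d n id ∧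
    (d : ℝ) ^ n / 2 ≤ ‖deriv (It d n id) (x⁻¹ * β x)‖ * ‖deriv (fun y => y⁻¹ * β y) x‖ := by
  have hd2 : 2 ≤ d := by omega
  have hN : 1 ≤ d ^ n := Nat.one_le_pow _ _ (by omega)
  have hN8 : 8 ≤ d ^ n := by
    calc 8 ≤ d := hd
      _ = d ^ 1 := (pow_one d).symm
      _ ≤ d ^ n := Nat.pow_le_pow_right (by omega) hn
  have hNR : (8 : ℝ) ≤ (d : ℝ) ^ n := by exact_mod_cast hN8
  have hlt1 : ‖x‖ < 1 := by
    by_contra hcon
    push Not at hcon
    have := one_le_pow₀ hcon (n := d ^ n)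
    linarith
  have hge : 2 / 3 ≤ ‖x‖ := by
    by_contra hcon
    push Not at hcon
    have h1 : ‖x‖ ^ (d ^ n) ≤ ‖x‖ ^ 8 := pow_le_pow_of_le_one (norm_nonneg _) hlt1.le hN8
    have h2 : ‖x‖ ^ 8 ≤ (2 / 3 : ℝ) ^ 8 := pow_le_pow_left₀ (norm_nonneg _) hcon.le 8
    norm_num at h2
    linarith
  have hx0 : x ≠ 0 := by
    rintro rfl
    rw [norm_zero] at hge; linarith
  have hxn : 0 < ‖x‖ := by linarith
  have hxb : x ∈ ball (0 : ℂ) 1 := by rwa [mem_ball_zero_iff]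
  have hclose := BB_close' hd hβ n (x := x) (by linarith)
  have hBge : 99 / 100 ≤ ‖BB d β n x‖ := by
    have := norm_sub_norm_le (1 : ℂ) (1 - BB d β n x)
    rw [norm_one, norm_sub_rev 1 (BB d β n x), sub_sub_cancel] at this
    linarith
  have hBle : ‖BB d β n x‖ ≤ 101 / 100 := by
    have := norm_sub_norm_le (BB d β n x) 1
    rw [norm_one] at this
    linarith
  have heq : P d (n + 1) (x⁻¹ * β x) = (x ^ (d ^ n))⁻¹ * BB d β n x := by
    rw [BB_eq hd2 β n x hx0]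
    have : x ^ (d ^ n) ≠ 0 := pow_ne_zero _ hx0
    field_simp
  refine ⟨hge, hlt1, ⟨?_, ?_⟩, ?_⟩
  · rw [norm_mul, norm_inv, inv_mul_le_iff₀ hxn]
    have := hβ.bound x hxb
    linarith
  · rw [It_eq_P hd2, heq, norm_mul, norm_inv, norm_pow, inv_mul_le_iff₀ (by positivity)]
    linarith
  · -- the derivative
    set f : ℂ → ℂ := fun y => y⁻¹ * β y with hf
    have hβd : DifferentiableAt ℂ β x := hβ.diff.differentiableAt (isOpen_ball.mem_nhds hxb)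
    have hfd : DifferentiableAt ℂ f x := (differentiableAt_inv hx0).mul hβd
    have hBd : DifferentiableAt ℂ (BB d β n) x :=
      (BB_diff hβ.diff n).differentiableAt (isOpen_ball.mem_nhds hxb)
    have hId : Differentiable ℂ (It d n id) := It_diff d n differentiable_id
    have h1 : HasDerivAt (fun y => It d n id (f y)) (deriv (It d n id) (f x) * deriv f x) x :=
      (hId (f x)).hasDerivAt.comp x hfd.hasDerivAt
    have h2 : HasDerivAt (fun y => (y ^ (d ^ n))⁻¹ * BB d β n y)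
        (-(((d ^ n : ℕ) : ℂ) * x ^ (d ^ n - 1)) / (x ^ (d ^ n)) ^ 2 * BB d β n x +
          (x ^ (d ^ n))⁻¹ * deriv (BB d β n) x) x :=
      ((hasDerivAt_pow (d ^ n) x).fun_inv (pow_ne_zero _ hx0)).mul hBd.hasDerivAt
    have h3 : (fun y => It d n id (f y)) =ᶠ[𝓝 x] (fun y => (y ^ (d ^ n))⁻¹ * BB d β n y) := by
      filter_upwards [isOpen_ne.mem_nhds hx0] with y hy
      rw [It_eq_P hd2, BB_eq hd2 β n y hy]
      have : y ^ (d ^ n) ≠ 0 := pow_ne_zero _ hy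
      simp only [hf]
      field_simp
    have h4 := h1.unique (h2.congr_of_eventuallyEq h3)
    rw [← norm_mul, h4]
    have h5 : -(((d ^ n : ℕ) : ℂ) * x ^ (d ^ n - 1)) / (x ^ (d ^ n)) ^ 2 * BB d β n x +
          (x ^ (d ^ n))⁻¹ * deriv (BB d β n) x =
        (x ^ (d ^ n))⁻¹ * x⁻¹ * (x * deriv (BB d β n) x - ((d ^ n : ℕ) : ℂ) * BB d β n x) := by
      obtain ⟨k, hk⟩ := Nat.exists_eq_add_of_le' hN
      rw [hk, Nat.add_sub_cancel, pow_succ]
      have : x ^ k ≠ 0 := pow_ne_zero _ hx0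
      field_simp
      ring
    rw [h5, norm_mul, norm_mul, norm_inv, norm_inv, norm_pow]
    have h6 : (d : ℝ) ^ n / 2 ≤
        ‖x * deriv (BB d β n) x - ((d ^ n : ℕ) : ℂ) * BB d β n x‖ := by
      have h7 := norm_sub_norm_le (((d ^ n : ℕ) : ℂ) * BB d β n x) (x * deriv (BB d β n) x)
      rw [norm_sub_rev, norm_mul, norm_mul, Complex.norm_natCast] at h7
      have h8 := BB_deriv hd hβ n hx0 hx2.le
      push_cast at h7 ⊢
      nlinarith
    have h7 : 1 ≤ (‖x‖ ^ (d ^ n))⁻¹ * ‖x‖⁻¹ := by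
      rw [← mul_inv, one_le_inv₀ (by positivity), ← pow_succ]
      exact pow_le_one₀ hxn.le hlt1.le
    calc (d : ℝ) ^ n / 2 ≤ ‖x * deriv (BB d β n) x - ((d ^ n : ℕ) : ℂ) * BB d β n x‖ := h6
      _ ≤ _ := le_mul_of_one_le_left (norm_nonneg _) h7

end Pool.Agent.H32MB
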