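import Mathlib

set_option autoImplicit false

open Complex Set Topology Filter Metric MeasureTheory

namespace Pool.Agent.H32MB

/-- The `L¹` means of an analytic function are nondecreasing in the radius. -/
theorem mean_mono {G : ℂ → ℂ} (hG : DifferentiableOn ℂ G (ball 0 1)) {r s : ℝ} (hr : 0 ≤ r)
    (hrs : r ≤ s) (hs : s < 1) :
    ∫ θ in (-Real.pi)..Real.pi, ‖G (circleMap 0 r θ)‖ ≤
      ∫ θ in (-Real.pi)..Real.pi, ‖G (circleMap 0 s θ)‖ := by
  have hpi := Real.pi_pos
  have hpp : -Real.pi ≤ Real.pi := by linarith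
  rcases eq_or_lt_of_le hrs with hrs' | hrs'
  · rw [hrs']
  have hs0 : 0 < s := lt_of_le_of_lt hr hrs'
  set g : ℝ → ℂ := fun θ => G (circleMap 0 r θ) with hg
  have hcm : ∀ (t : ℝ), 0 ≤ t → t < 1 → ∀ θ : ℝ, circleMap 0 t θ ∈ ball (0 : ℂ) 1 := by
    intro t ht0 ht1 θ
    rw [mem_ball_zero_iff, norm_circleMap_zero, abs_of_nonneg ht0]
    exact ht1
  have hgc : Continuous g := hG.continuousOn.comp_continuous (continuous_circleMap 0 r)
    (hcm r hr (by linarith))
  set u : ℝ → ℂ := fun θ => (starRingEnd ℂ) (g θ) / ‖g θ‖ with hu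
  have hum : Measurable u := by
    apply Measurable.div
    · exact (Complex.continuous_conj.comp hgc).measurable
    · exact (Complex.continuous_ofReal.comp hgc.norm).measurable
  have hu1 : ∀ θ, ‖u θ‖ ≤ 1 := by
    intro θ
    rw [hu]
    simp only [norm_div, RCLike.norm_conj, Complex.norm_real, norm_norm]
    exact div_self_le_one _
  have hug : ∀ θ, u θ * g θ = (‖g θ‖ : ℂ) := by
    intro θ
    by_cases h0 : g θ = 0
    · simp [hu, h0]
    · have h1 : (‖g θ‖ : ℂ) ≠ 0 := by exact_mod_cast norm_ne_zero_iff.mpr h0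
      simp only [hu]
      rw [div_mul_eq_mul_div, div_eq_iff h1, mul_comm, Complex.mul_conj, Complex.normSq_eq_norm_sq]
      push_cast
      ring
  set H : ℂ → ℂ := fun z => ∫ θ in (-Real.pi)..Real.pi, u θ * G (z * Complex.exp (θ * I)) with hH
  have hexp : ∀ θ : ℝ, ‖Complex.exp (θ * I)‖ = 1 := fun θ => Complex.norm_exp_ofReal_mul_I θ
  have hin : ∀ z ∈ ball (0 : ℂ) 1, ∀ θ : ℝ, z * Complex.exp (θ * I) ∈ ball (0 : ℂ) 1 := by
    intro z hz θ
    rw [mem_ball_zero_iff] at hz ⊢
    rw [norm_mul, hexp, mul_one]; exact hz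
  have hcont : ∀ (F : ℂ → ℂ), ContinuousOn F (ball 0 1) → ∀ z ∈ ball (0 : ℂ) 1,
      Continuous (fun θ : ℝ => F (z * Complex.exp (θ * I))) := by
    intro F hF z hz
    exact hF.comp_continuous (by fun_prop) (hin z hz)
  have hGd : DifferentiableOn ℂ (deriv G) (ball 0 1) := hG.deriv isOpen_ball
  have hHd : ∀ z0 ∈ ball (0 : ℂ) 1, DifferentiableAt ℂ H z0 := by
    intro z0 hz0
    rw [mem_ball_zero_iff] at hz0
    obtain ⟨ρ, hρ1, hρ2⟩ := exists_between hz0
    have hρ0 : 0 < ρ := lt_of_le_of_lt (norm_nonneg _) hρ1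
    have hsub : closedBall (0 : ℂ) ρ ⊆ ball 0 1 := closedBall_subset_ball hρ2
    obtain ⟨C, hC⟩ := (isCompact_closedBall (0 : ℂ) ρ).exists_bound_of_continuousOn
      (hGd.continuousOn.mono hsub)
    have key := intervalIntegral.hasDerivAt_integral_of_dominated_loc_of_deriv_le
      (F := fun z θ => u θ * G (z * Complex.exp (θ * I)))
      (F' := fun z θ => u θ * (deriv G (z * Complex.exp (θ * I)) * Complex.exp (θ * I)))
      (x₀ := z0) (s := ball 0 ρ) (μ := volume) (a := -Real.pi) (b := Real.pi) (bound := fun _ => C)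
      (isOpen_ball.mem_nhds (by rwa [mem_ball_zero_iff])) ?_ ?_ ?_ ?_ ?_ ?_
    · exact key.2.differentiableAt
    · filter_upwards [isOpen_ball.mem_nhds (show z0 ∈ ball (0 : ℂ) 1 by rwa [mem_ball_zero_iff])]
        with z hz
      exact (hum.mul (hcont G hG.continuousOn z hz).measurable).aestronglyMeasurable
    · obtain ⟨C', hC'⟩ := (isCompact_closedBall (0 : ℂ) ρ).exists_bound_of_continuousOn
        (hG.continuousOn.mono hsub)
      rw [intervalIntegrable_iff]
      have hz0' : z0 ∈ ball (0 : ℂ) 1 := by rwa [mem_ball_zero_iff]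
      refine Measure.integrableOn_of_bounded (M := C') ?_ ?_ ?_
      · simp
      · exact (hum.mul (hcont G hG.continuousOn z0 hz0').measurable).aestronglyMeasurable
      · refine Eventually.of_forall fun θ => ?_
        rw [norm_mul]
        have h1 : ‖G (z0 * Complex.exp (θ * I))‖ ≤ C' := by
          apply hC'
          rw [mem_closedBall_zero_iff, norm_mul, hexp, mul_one]
          exact hρ1.le
        calc ‖u θ‖ * ‖G (z0 * Complex.exp (θ * I))‖ ≤ 1 * C' :=
              mul_le_mul (hu1 θ) h1 (norm_nonneg _) (by norm_num)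
          _ = C' := one_mul _
    · have hz0' : z0 ∈ ball (0 : ℂ) 1 := by rwa [mem_ball_zero_iff]
      refine (hum.mul (Measurable.mul ?_ ?_)).aestronglyMeasurable
      · exact (hcont _ hGd.continuousOn z0 hz0').measurable
      · exact Continuous.measurable (by fun_prop)
    · refine Eventually.of_forall fun θ _ z hz => ?_
      have h1 : ‖deriv G (z * Complex.exp (θ * I))‖ ≤ C := by
        apply hC
        rw [mem_ball_zero_iff] at hz
        rw [mem_closedBall_zero_iff, norm_mul, hexp, mul_one]
        exact hz.le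
      rw [norm_mul, norm_mul, hexp, mul_one]
      calc ‖u θ‖ * ‖deriv G (z * Complex.exp (θ * I))‖ ≤ 1 * C :=
            mul_le_mul (hu1 θ) h1 (norm_nonneg _) (by norm_num)
        _ = C := one_mul _
    · exact intervalIntegrable_const
    · refine Eventually.of_forall fun θ _ z hz => ?_
      apply HasDerivAt.const_mul
      have hz' : z ∈ ball (0 : ℂ) 1 := ball_subset_ball hρ2.le hz
      have h1 : HasDerivAt G (deriv G (z * Complex.exp (θ * I))) (z * Complex.exp (θ * I)) :=
        (hG.differentiableAt (isOpen_ball.mem_nhds (hin z hz' θ))).hasDerivAt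
      have h2 : HasDerivAt (fun w : ℂ => w * Complex.exp (θ * I)) (Complex.exp (θ * I)) z := by
        simpa using (hasDerivAt_id z).mul_const (Complex.exp (θ * I))
      exact h1.comp z h2
  have hclos : closedBall (0 : ℂ) s ⊆ ball 0 1 := closedBall_subset_ball hs
  have hdc : DiffContOnCl ℂ H (ball 0 s) := by
    apply DifferentiableOn.diffContOnCl
    rw [closure_ball _ hs0.ne']
    exact fun z hz => (hHd z (hclos hz)).differentiableWithinAt
  have hmax : ‖H (r : ℂ)‖ ≤ ∫ θ in (-Real.pi)..Real.pi, ‖G (circleMap 0 s θ)‖ := by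
    apply Complex.norm_le_of_forall_mem_frontier_norm_le isBounded_ball hdc
    · intro z hz
      rw [frontier_ball _ hs0.ne', mem_sphere_zero_iff_norm] at hz
      have hz1 : z ∈ ball (0 : ℂ) 1 := by rw [mem_ball_zero_iff, hz]; exact hs
      have h1 : ‖H z‖ ≤ ∫ θ in (-Real.pi)..Real.pi, ‖G (z * Complex.exp (θ * I))‖ := by
        rw [hH]
        refine (intervalIntegral.norm_integral_le_integral_norm hpp).trans ?_
        have hci : IntervalIntegrable (fun θ : ℝ => ‖G (z * Complex.exp (θ * I))‖) volume
            (-Real.pi) Real.pi := (hcont G hG.continuousOn z hz1).norm.intervalIntegrable _ _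
        apply intervalIntegral.integral_mono_on hpp ?_ hci
        · intro θ _
          rw [norm_mul]
          exact mul_le_of_le_one_left (norm_nonneg _) (hu1 θ)
        · refine hci.mono_fun ?_ ?_
          · exact (hum.mul (hcont G hG.continuousOn z hz1).measurable).norm.aestronglyMeasurable
          · refine Eventually.of_forall fun θ => ?_
            simp only [norm_norm, norm_mul]
            exact mul_le_of_le_one_left (norm_nonneg _) (hu1 θ)
      refine h1.trans (le_of_eq ?_)
      set φ := Complex.arg z with hφ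
      have h2 : ∀ θ : ℝ, z * Complex.exp (θ * I) = circleMap 0 s (θ + φ) := by
        intro θ
        have h3 : z = s * Complex.exp (φ * I) := by
          rw [← hz, Complex.norm_mul_exp_arg_mul_I]
        rw [circleMap, zero_add]
        conv_lhs => rw [h3]
        rw [mul_assoc, ← Complex.exp_add]
        push_cast
        ring_nf
      simp only [h2]
      rw [intervalIntegral.integral_comp_add_right (fun θ => ‖G (circleMap 0 s θ)‖) φ]
      have hper : Function.Periodic (fun θ : ℝ => ‖G (circleMap 0 s θ)‖) (2 * Real.pi) := by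
        intro θ
        simp only
        rw [periodic_circleMap 0 s θ]
      have h4 := hper.intervalIntegral_add_eq (-Real.pi + φ) (-Real.pi)
      rw [show -Real.pi + φ + 2 * Real.pi = Real.pi + φ by ring,
        show -Real.pi + 2 * Real.pi = Real.pi by ring] at h4
      exact h4
    · rw [closure_ball _ hs0.ne', mem_closedBall_zero_iff, Complex.norm_real, Real.norm_eq_abs,
        abs_of_nonneg hr]
      exact hrs
  have hHr : H (r : ℂ) = ((∫ θ in (-Real.pi)..Real.pi, ‖g θ‖ : ℝ) : ℂ) := by
    rw [hH, ← intervalIntegral.integral_ofReal]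
    simp only
    congr 1
    funext θ
    rw [← hug θ]
    simp only [hg, circleMap, zero_add]
  have hfin : ∫ θ in (-Real.pi)..Real.pi, ‖g θ‖ ≤ ‖H (r : ℂ)‖ := by
    rw [hHr, Complex.norm_real]
    exact le_abs_self _
  exact hfin.trans hmax

end Pool.Agent.H32MB
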