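import Mathlib
import Pool.Agent.H32MB.Coef1
import Pool.Agent.H32MB.Mono

set_option autoImplicit false

open Complex Set Topology Filter Metric Asymptotics MeasureTheory N62a1eb23

namespace Pool.Agent.H32MB

open Pool.Agent.H712R2 Pool.Agent.H713R2 Pool.Agent.H713R2.AR

theorem pow_sub_le {a b : ℝ} (hb : 0 ≤ b) (hab : b ≤ a) (ha : a ≤ 1) (N : ℕ) :
    a ^ N - b ^ N ≤ N * (a - b) := by
  induction N with
  | zero => simp
  | succ N ih =>
    have h1 : a ^ (N + 1) - b ^ (N + 1) = a * (a ^ N - b ^ N) + b ^ N * (a - b) := by ring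
    rw [h1]
    have h2 : b ^ N ≤ 1 := pow_le_one₀ hb (hab.trans ha)
    have h3 : 0 ≤ a ^ N - b ^ N := sub_nonneg.mpr (pow_le_pow_left₀ hb hab N)
    push_cast
    nlinarith [mul_nonneg h3 (sub_nonneg.mpr ha), mul_nonneg (sub_nonneg.mpr h2)
      (sub_nonneg.mpr hab)]

/-- `ψ'(z) = - GG (1 / z)` for the exterior map `ψ z = z * β (1 / z)`. -/
noncomputable def GG (β : ℂ → ℂ) : ℂ → ℂ := fun x => x * deriv β x - β x

theorem GG_diff {d : ℕ} {β : ℂ → ℂ} (hβ : IsBeta d β) : DifferentiableOn ℂ (GG β) (ball 0 1) :=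
  (differentiableOn_id.mul (hβ.diff.deriv isOpen_ball)).sub hβ.diff

/-- Polar coordinates on an annulus. -/
theorem polar_lower {G : ℂ → ℂ} (hG : DifferentiableOn ℂ G (ball 0 1)) {r1 r2 : ℝ} (h1 : 0 < r1)
    (h12 : r1 < r2) (h2 : r2 < 1) :
    ENNReal.ofReal ((r2 - r1) * (r1 * ∫ θ in (-Real.pi)..Real.pi, ‖G (circleMap 0 r1 θ)‖)) ≤
      ∫⁻ x in {x : ℂ | r1 < ‖x‖ ∧ ‖x‖ < r2}, ENNReal.ofReal ‖G x‖ := by
  have hpi := Real.pi_pos
  set A : Set ℂ := {x | r1 < ‖x‖ ∧ ‖x‖ < r2} with hA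
  have hAo : IsOpen A := (isOpen_lt continuous_const continuous_norm).inter
    (isOpen_lt continuous_norm continuous_const)
  have hAm : MeasurableSet A := hAo.measurableSet
  rw [← lintegral_indicator hAm, ← Complex.lintegral_comp_polarCoord_symm]
  set S : Set (ℝ × ℝ) := Ioo r1 r2 ×ˢ Ioo (-Real.pi) Real.pi with hS
  have hSm : MeasurableSet S := measurableSet_Ioo.prod measurableSet_Ioo
  have hST : S ⊆ polarCoord.target := by
    rw [polarCoord_target]
    apply prod_mono _ subset_rfl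
    intro r hr
    exact lt_trans h1 hr.1
  have hmem : ∀ q ∈ S, circleMap 0 q.1 q.2 ∈ A ∧ ‖circleMap 0 q.1 q.2‖ = q.1 := by
    intro q hq
    have h3 : ‖circleMap 0 q.1 q.2‖ = q.1 := by
      rw [norm_circleMap_zero, abs_of_pos (lt_trans h1 hq.1.1)]
    refine ⟨?_, h3⟩
    rw [hA]
    constructor
    · rw [h3]; exact hq.1.1
    · rw [h3]; exact hq.1.2
  have h3 : ∫⁻ q in S, ENNReal.ofReal (q.1 * ‖G (circleMap 0 q.1 q.2)‖) ≤
      ∫⁻ p in polarCoord.target, ENNReal.ofReal p.1 •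
        A.indicator (fun a => ENNReal.ofReal ‖G a‖) (Complex.polarCoord.symm p) := by
    refine le_trans ?_ (lintegral_mono_set hST)
    apply setLIntegral_mono_ae' hSm
    refine Filter.Eventually.of_forall fun q hq => ?_
    obtain ⟨h4, h5⟩ := hmem q hq
    have hq0 : 0 < q.1 := lt_trans h1 hq.1.1
    rw [polar_eq_circleMap, indicator_of_mem h4, smul_eq_mul, ← ENNReal.ofReal_mul hq0.le]
  refine le_trans ?_ h3
  have hcont : ContinuousOn (fun q : ℝ × ℝ => q.1 * ‖G (circleMap 0 q.1 q.2)‖) S := by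
    apply ContinuousOn.mul continuousOn_fst
    apply ContinuousOn.norm
    apply hG.continuousOn.comp
    · apply Continuous.continuousOn
      unfold circleMap
      fun_prop
    · intro q hq
      obtain ⟨h4, h5⟩ := hmem q hq
      rw [mem_ball_zero_iff, h5]
      exact lt_trans hq.1.2 h2
  have hae : AEMeasurable (fun q : ℝ × ℝ => ENNReal.ofReal (q.1 * ‖G (circleMap 0 q.1 q.2)‖))
      (((volume : Measure ℝ).prod (volume : Measure ℝ)).restrict S) :=
    (hcont.aemeasurable hSm).ennreal_ofReal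
  rw [Measure.volume_eq_prod, hS, setLIntegral_prod _ hae]
  set M : ℝ := ∫ θ in (-Real.pi)..Real.pi, ‖G (circleMap 0 r1 θ)‖ with hM
  have h4 : ∫⁻ _r in Ioo r1 r2, ENNReal.ofReal (r1 * M) ≤
      ∫⁻ r in Ioo r1 r2, ∫⁻ θ in Ioo (-Real.pi) Real.pi,
        ENNReal.ofReal (r * ‖G (circleMap 0 r θ)‖) := by
    apply setLIntegral_mono_ae' measurableSet_Ioo
    refine Filter.Eventually.of_forall fun r hr => ?_
    have hr0 : 0 < r := lt_trans h1 hr.1
    have hr1 : r < 1 := lt_trans hr.2 h2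
    have hc2 : Continuous (fun θ : ℝ => r * ‖G (circleMap 0 r θ)‖) := by
      apply continuous_const.mul
      apply Continuous.norm
      apply hG.continuousOn.comp_continuous (continuous_circleMap 0 r)
      intro θ
      rw [mem_ball_zero_iff, norm_circleMap_zero, abs_of_pos hr0]
      exact hr1
    have h5 : ∫⁻ θ in Ioo (-Real.pi) Real.pi, ENNReal.ofReal (r * ‖G (circleMap 0 r θ)‖) =
        ENNReal.ofReal (∫ θ in (-Real.pi)..Real.pi, r * ‖G (circleMap 0 r θ)‖) := by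
      rw [restrict_Ioo_eq_restrict_Ioc, intervalIntegral.integral_of_le (by linarith)]
      rw [ofReal_integral_eq_lintegral_ofReal]
      · exact (hc2.intervalIntegrable _ _).1
      · exact Filter.Eventually.of_forall fun θ => by positivity
    rw [h5]
    apply ENNReal.ofReal_le_ofReal
    rw [intervalIntegral.integral_const_mul]
    have h6 := mean_mono hG h1.le hr.1.le hr1
    have h7 : 0 ≤ M := intervalIntegral.integral_nonneg (by linarith) fun θ _ => norm_nonneg _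
    exact mul_le_mul hr.1.le h6 h7 hr0.le
  refine le_trans (le_of_eq ?_) h4
  rw [setLIntegral_const, Real.volume_Ioo, mul_comm (ENNReal.ofReal _),
    ← ENNReal.ofReal_mul (by linarith)]

theorem annulus_upper {d : ℕ} (hd : 8 ≤ d) {β : ℂ → ℂ} (hβ : IsBeta d β) {n : ℕ} (hn : 1 ≤ n)
    {M : ℝ} (hM0 : 0 ≤ M) (hM : ∫⁻ c in Sh d n id, ENNReal.ofReal ‖deriv (It d n id) c‖ ≤
      ENNReal.ofReal M) {r1 r2 : ℝ} (h1 : 0 < r1) (hr1 : r1 ^ (d ^ n) = 1 / 16) (h2 : 0 < r2)
    (hr2 : r2 ^ (d ^ n) = 1 / 8) :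
    ∫⁻ x in {x : ℂ | r1 < ‖x‖ ∧ ‖x‖ < r2}, ENNReal.ofReal ‖GG β x‖ ≤
      ENNReal.ofReal (2 / (d : ℝ) ^ n * M) := by
  have hN : d ^ n ≠ 0 := pow_ne_zero _ (by omega)
  have hd0 : (0 : ℝ) < d := by exact_mod_cast (show 0 < d by omega)
  have hNR : (0 : ℝ) < (d : ℝ) ^ n := by positivity
  set A : Set ℂ := {x | r1 < ‖x‖ ∧ ‖x‖ < r2} with hA
  have hAo : IsOpen A := (isOpen_lt continuous_const continuous_norm).inter
    (isOpen_lt continuous_norm continuous_const)
  have hAm : MeasurableSet A := hAo.measurableSet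
  set f : ℂ → ℂ := fun y => y⁻¹ * β y with hf
  have hpow : ∀ x ∈ A, 1 / 16 < ‖x‖ ^ (d ^ n) ∧ ‖x‖ ^ (d ^ n) < 1 / 8 := by
    intro x hx
    rw [← hr1, ← hr2]
    exact ⟨pow_lt_pow_left₀ hx.1 h1.le hN, pow_lt_pow_left₀ hx.2 (norm_nonneg _) hN⟩
  have hlow : ∀ x ∈ A, _ := fun x hx => deriv_lower hd hβ hn (hpow x hx).1 (hpow x hx).2
  have hfd : ∀ x ∈ A, DifferentiableAt ℂ f x := by
    intro x hx
    obtain ⟨h3, h4, _, _⟩ := hlow x hx
    have hx0 : x ≠ 0 := by
      rintro rfl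
      rw [norm_zero] at h3; linarith
    exact (differentiableAt_inv hx0).mul
      (hβ.diff.differentiableAt (isOpen_ball.mem_nhds (by rwa [mem_ball_zero_iff])))
  have hfi : InjOn f A := by
    intro x hx y hy h
    obtain ⟨h3, h4, _, _⟩ := hlow x hx
    obtain ⟨h5, h6, _, _⟩ := hlow y hy
    refine hβ.inj x (by rwa [mem_ball_zero_iff]) y (by rwa [mem_ball_zero_iff]) ?_ ?_ h
    · rintro rfl
      rw [norm_zero] at h3; linarith
    · rintro rfl
      rw [norm_zero] at h5; linarith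
  have hGf : ∀ x ∈ A, ‖GG β x‖ ≤ ‖deriv f x‖ := by
    intro x hx
    obtain ⟨h3, h4, _, _⟩ := hlow x hx
    have hx0 : x ≠ 0 := by
      rintro rfl
      rw [norm_zero] at h3; linarith
    have h5 : HasDerivAt β (deriv β x) x :=
      (hβ.diff.differentiableAt (isOpen_ball.mem_nhds (by rwa [mem_ball_zero_iff]))).hasDerivAt
    have h6 := (hasDerivAt_inv hx0).mul h5
    have h7 : deriv f x = GG β x / x ^ 2 := by
      rw [show f = (fun y => y⁻¹) * β from rfl, h6.deriv]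
      unfold GG
      field_simp
      ring
    rw [h7, norm_div, norm_pow]
    apply le_div_self (norm_nonneg _) (by positivity)
    exact pow_le_one₀ (norm_nonneg _) h4.le
  set G : ℂ → ENNReal := fun w => ENNReal.ofReal (2 / (d : ℝ) ^ n * ‖deriv (It d n id) w‖) with hG
  calc ∫⁻ x in A, ENNReal.ofReal ‖GG β x‖
      ≤ ∫⁻ x in A, ENNReal.ofReal (‖deriv f x‖ ^ 2) * G (f x) := by
        apply setLIntegral_mono_ae' hAm
        refine Filter.Eventually.of_forall fun x hx => ?_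
        obtain ⟨h3, h4, _, h5⟩ := hlow x hx
        rw [hG, ← ENNReal.ofReal_mul (by positivity)]
        apply ENNReal.ofReal_le_ofReal
        refine (hGf x hx).trans ?_
        have h6 : 1 ≤ 2 / (d : ℝ) ^ n * (‖deriv (It d n id) (f x)‖ * ‖deriv f x‖) := by
          rw [div_mul_eq_mul_div, one_le_div hNR]
          linarith
        calc ‖deriv f x‖ ≤ ‖deriv f x‖ *
              (2 / (d : ℝ) ^ n * (‖deriv (It d n id) (f x)‖ * ‖deriv f x‖)) :=
              le_mul_of_one_le_right (norm_nonneg _) h6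
          _ = ‖deriv f x‖ ^ 2 * (2 / (d : ℝ) ^ n * ‖deriv (It d n id) (f x)‖) := by ring
    _ = ∫⁻ w in f '' A, G w := change_var hAm hfd hfi G
    _ ≤ ∫⁻ w in Sh d n id, G w := by
        apply lintegral_mono_set
        rintro _ ⟨x, hx, rfl⟩
        exact (hlow x hx).2.2.1
    _ = ENNReal.ofReal (2 / (d : ℝ) ^ n) *
          ∫⁻ c in Sh d n id, ENNReal.ofReal ‖deriv (It d n id) c‖ := by
        rw [← lintegral_const_mul']
        · apply lintegral_congr
          intro w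
          simp only [hG]
          rw [ENNReal.ofReal_mul (by positivity)]
        · exact ENNReal.ofReal_ne_top
    _ ≤ ENNReal.ofReal (2 / (d : ℝ) ^ n) * ENNReal.ofReal M := by gcongr
    _ = ENNReal.ofReal (2 / (d : ℝ) ^ n * M) := (ENNReal.ofReal_mul (by positivity)).symm

/-- Bound for the integral means of the derivative. -/
theorem mean_bound {d : ℕ} (hd : 8 ≤ d) {β : ℂ → ℂ} (hβ : IsBeta d β) {n : ℕ} (hn : 1 ≤ n)
    {M : ℝ} (hM0 : 0 ≤ M) (hM : ∫⁻ c in Sh d n id, ENNReal.ofReal ‖deriv (It d n id) c‖ ≤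
      ENNReal.ofReal M) {r : ℝ} (hr0 : 0 ≤ r) (hr : r ^ (d ^ n) ≤ 1 / 16) :
    ∫ θ in (-Real.pi)..Real.pi, ‖GG β (circleMap 0 r θ)‖ ≤ 48 * M := by
  have hN : d ^ n ≠ 0 := pow_ne_zero _ (by omega)
  have hd0 : (0 : ℝ) < d := by exact_mod_cast (show 0 < d by omega)
  have hNR : (0 : ℝ) < (d : ℝ) ^ n := by positivity
  set r1 : ℝ := (1 / 16 : ℝ) ^ (((d ^ n : ℕ) : ℝ)⁻¹) with hr1d
  set r2 : ℝ := (1 / 8 : ℝ) ^ (((d ^ n : ℕ) : ℝ)⁻¹) with hr2d
  have hr1 : r1 ^ (d ^ n) = 1 / 16 := Real.rpow_inv_natCast_pow (by norm_num) hN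
  have hr2 : r2 ^ (d ^ n) = 1 / 8 := Real.rpow_inv_natCast_pow (by norm_num) hN
  have h1 : 0 < r1 := by positivity
  have h2 : 0 < r2 := by positivity
  have h12 : r1 < r2 := by
    rw [← pow_lt_pow_iff_left₀ h1.le h2.le hN, hr1, hr2]
    norm_num
  have h21 : r2 < 1 := by
    rw [← pow_lt_pow_iff_left₀ h2.le (by norm_num) hN, hr2, one_pow]
    norm_num
  have hrr : r ≤ r1 := by
    rw [← pow_le_pow_iff_left₀ hr0 h1.le hN, hr1]
    exact hr
  have hlow : 2 / 3 ≤ r1 := by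
    by_contra hcon
    push Not at hcon
    have hN8 : 8 ≤ d ^ n := by
      calc 8 ≤ d := hd
        _ = d ^ 1 := (pow_one d).symm
        _ ≤ d ^ n := Nat.pow_le_pow_right (by omega) hn
    have h3 : r1 ^ (d ^ n) ≤ r1 ^ 8 := pow_le_pow_of_le_one h1.le (by linarith) hN8
    have h4 : r1 ^ 8 ≤ (2 / 3 : ℝ) ^ 8 := pow_le_pow_left₀ h1.le hcon.le 8
    norm_num at h4
    linarith
  have h3 := polar_lower (GG_diff hβ) h1 h12 h21
  have h4 := h3.trans (annulus_upper hd hβ hn hM0 hM h1 hr1 h2 hr2)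
  rw [ENNReal.ofReal_le_ofReal_iff (by positivity)] at h4
  have h5 := mean_mono (GG_diff hβ) hr0 hrr (h12.trans h21)
  refine h5.trans ?_
  set Q : ℝ := ∫ θ in (-Real.pi)..Real.pi, ‖GG β (circleMap 0 r1 θ)‖ with hQ
  have hQ0 : 0 ≤ Q := intervalIntegral.integral_nonneg (by linarith [Real.pi_pos])
    fun θ _ => norm_nonneg _
  have h6 : 1 / (16 * (d : ℝ) ^ n) ≤ r2 - r1 := by
    have h7 := pow_sub_le h1.le h12.le h21.le (d ^ n)
    rw [hr1, hr2] at h7
    push_cast at h7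
    rw [div_le_iff₀ (by positivity)]
    linarith
  have h7 : 1 / (16 * (d : ℝ) ^ n) * (2 / 3 * Q) ≤ 2 / (d : ℝ) ^ n * M := by
    refine le_trans ?_ h4
    apply mul_le_mul h6 _ (by positivity) (by linarith)
    exact mul_le_mul_of_nonneg_right hlow hQ0
  have h8 : 1 / (16 * (d : ℝ) ^ n) * (2 / 3 * Q) = (Q / 24) / (d : ℝ) ^ n := by
    field_simp; ring
  have h9 : 2 / (d : ℝ) ^ n * M = (2 * M) / (d : ℝ) ^ n := by ring
  rw [h8, h9, div_le_div_iff_of_pos_right hNR] at h7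
  linarith

end Pool.Agent.H32MB
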