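import Mathlib
import Pool.Agent.H32MB.Coef2

set_option autoImplicit false

open Complex Set Topology Filter Metric Asymptotics MeasureTheory N62a1eb23

namespace Pool.Agent.H32MB

open Pool.Agent.H712R2 Pool.Agent.H713R2 Pool.Agent.H713R2.AR

/-- The derivative of the exterior map. -/
theorem deriv_psi {d : ℕ} {β : ℂ → ℂ} (hβ : IsBeta d β) {ψ : ℂ → ℂ}
    (hψ : IsExteriorMap (multibrotSet d) ψ) {z : ℂ} (hz : 1 < ‖z‖) :
    deriv ψ z = - GG β z⁻¹ := by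
  obtain ⟨h1, h2⟩ := inv_mem_ball hz
  have hz0 : z ≠ 0 := fun h => h2 (by rw [h, inv_zero])
  have hext : IsOpen {z : ℂ | 1 < ‖z‖} := isOpen_lt continuous_const continuous_norm
  have h3 : ψ =ᶠ[𝓝 z] fun z => z * β z⁻¹ := by
    filter_upwards [hext.mem_nhds hz] with w hw
    exact exteriorMap_unique hβ hψ hw
  rw [h3.deriv_eq]
  have h4 : HasDerivAt β (deriv β z⁻¹) z⁻¹ :=
    (hβ.diff.differentiableAt (isOpen_ball.mem_nhds h1)).hasDerivAt
  have h5 : HasDerivAt (fun w : ℂ => β w⁻¹) (deriv β z⁻¹ * (-(z ^ 2)⁻¹)) z :=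
    h4.comp z (hasDerivAt_inv hz0)
  have h6 := (hasDerivAt_id z).mul h5
  have h7 : (fun z : ℂ => z * β z⁻¹) = id * fun w : ℂ => β w⁻¹ := rfl
  rw [h7, h6.deriv]
  unfold GG
  simp only [id]
  field_simp
  ring

theorem mean_psi {d : ℕ} {β : ℂ → ℂ} (hβ : IsBeta d β) {ψ : ℂ → ℂ}
    (hψ : IsExteriorMap (multibrotSet d) ψ) {R : ℝ} (hR : 1 < R) :
    ∫ θ in (-Real.pi)..Real.pi, ‖deriv ψ (circleMap 0 R θ)‖ =
      ∫ θ in (-Real.pi)..Real.pi, ‖GG β (circleMap 0 R⁻¹ θ)‖ := by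
  have h1 : ∀ θ : ℝ, ‖deriv ψ (circleMap 0 R θ)‖ = ‖GG β (circleMap 0 R⁻¹ (-θ))‖ := by
    intro θ
    have h2 : 1 < ‖circleMap 0 R θ‖ := by
      rw [norm_circleMap_zero, abs_of_pos (by linarith)]; exact hR
    rw [deriv_psi hβ hψ h2, norm_neg]
    congr 2
    rw [circleMap, circleMap, zero_add, zero_add, mul_inv, ← Complex.exp_neg]
    push_cast
    ring_nf
  simp only [h1]
  rw [intervalIntegral.integral_comp_neg (fun θ => ‖GG β (circleMap 0 R⁻¹ θ)‖), neg_neg]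

/-- Coefficients from the mean. -/
theorem coef_le {d : ℕ} {β : ℂ → ℂ} (hβ : IsBeta d β) {r Q : ℝ} (hr0 : 0 < r) (hr1 : r < 1)
    (hQ : ∫ θ in (-Real.pi)..Real.pi, ‖GG β (circleMap 0 r θ)‖ ≤ Q) (m : ℕ) :
    2 * Real.pi * ((m : ℝ) * ‖tc β (m + 1)‖ * r ^ (m + 1)) ≤ Q := by
  have hpi := Real.pi_pos
  have h1 := integral_exp_tc (GG_diff hβ) hr0 hr1 (m + 1)
  have htc : tc (GG β) (m + 1) = (m : ℂ) * tc β (m + 1) := by
    have hxd : DifferentiableOn ℂ (fun x => x * deriv β x) (ball 0 1) :=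
      differentiableOn_id.mul (hβ.diff.deriv isOpen_ball)
    have : GG β = fun x => x * deriv β x - β x := rfl
    rw [this, tc_sub one_pos hxd hβ.diff, tc_id_mul_deriv hβ.diff]
    push_cast
    ring
  have h2 : ‖∫ θ in (-Real.pi)..Real.pi, Complex.exp (-(((m + 1 : ℕ) : ℂ) * θ * I)) *
      GG β (circleMap 0 r θ)‖ ≤ ∫ θ in (-Real.pi)..Real.pi, ‖GG β (circleMap 0 r θ)‖ := by
    refine (intervalIntegral.norm_integral_le_integral_norm (by linarith)).trans (le_of_eq ?_)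
    congr 1
    funext θ
    have h3 : -(((m + 1 : ℕ) : ℂ) * θ * I) = ((-((m + 1 : ℕ) * θ) : ℝ) : ℂ) * I := by
      push_cast; ring
    rw [norm_mul, h3, Complex.norm_exp_ofReal_mul_I, one_mul]
  rw [h1, htc] at h2
  refine le_trans (le_of_eq ?_) (h2.trans hQ)
  have h4 : ‖(Real.pi : ℂ)‖ = Real.pi := by
    rw [Complex.norm_real, Real.norm_eq_abs, abs_of_pos hpi]
  rw [norm_mul, norm_mul, norm_mul, norm_mul, h4, Complex.norm_natCast, norm_pow,
    Complex.norm_real, Real.norm_eq_abs, abs_of_pos hr0, Complex.norm_ofNat]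

/-- Main bounds with one constant. -/
theorem main_bounds : ∃ K : ℝ, 1 ≤ K ∧ ∀ d : ℕ, 8 ≤ d → ∀ ψ : ℂ → ℂ,
    IsExteriorMap (multibrotSet d) ψ → ∀ n : ℕ, 1 ≤ n →
      (∀ R : ℝ, 0 < R → 16 ≤ R ^ (d ^ n) →
        ∫ θ in (-Real.pi)..Real.pi, ‖deriv ψ (circleMap 0 R θ)‖ ≤
          K * (K * Real.log d ^ 2) ^ n) ∧
      (∀ b : ℕ → ℂ, HasLaurent ψ b → ∀ m : ℕ, m + 1 ≤ d ^ n →
        (m : ℝ) * ‖b m‖ ≤ K * (K * Real.log d ^ 2) ^ n) := by
  obtain ⟨M, hM0, hM⟩ := global_bound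
  have hpi := Real.pi_pos
  have hpi3 := Real.pi_gt_three
  set c1 : ℝ := 55 * 12000 * (45 * Real.pi + 17952000 * Real.pi ^ 2) with hc1
  have hc10 : 0 < c1 := by positivity
  set K : ℝ := max 1 (max (768 * M) c1) with hK
  have hK1 : 1 ≤ K := le_max_left _ _
  have hKM : 768 * M ≤ K := (le_max_left _ _).trans (le_max_right _ _)
  have hKc : c1 ≤ K := (le_max_right _ _).trans (le_max_right _ _)
  refine ⟨K, hK1, fun d hd ψ hψ n hn => ?_⟩
  obtain ⟨β, hβ⟩ := exists_beta (d := d) (by omega)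
  have hN : d ^ n ≠ 0 := pow_ne_zero _ (by omega)
  have hlam0 : 0 ≤ lam d := by unfold lam; positivity
  have hlam : lam d ^ n ≤ (K * Real.log d ^ 2) ^ n := by
    apply pow_le_pow_left₀ hlam0
    unfold lam
    exact mul_le_mul_of_nonneg_right hKc (by positivity)
  have hlamn : 0 ≤ lam d ^ n := pow_nonneg hlam0 n
  have hmean : ∀ r : ℝ, 0 ≤ r → r ^ (d ^ n) ≤ 1 / 16 →
      ∫ θ in (-Real.pi)..Real.pi, ‖GG β (circleMap 0 r θ)‖ ≤ 48 * (M * lam d ^ n) :=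
    fun r hr0 hr => mean_bound hd hβ hn (by positivity) (hM d hd n) hr0 hr
  refine ⟨fun R hR0 hR => ?_, fun b hb m hm => ?_⟩
  · have hR1 : 1 < R := by
      by_contra hcon
      push Not at hcon
      have := pow_le_one₀ hR0.le hcon (n := d ^ n)
      linarith
    rw [mean_psi hβ hψ hR1]
    refine (hmean R⁻¹ (by positivity) ?_).trans ?_
    · rw [inv_pow, inv_le_comm₀ (by positivity) (by norm_num)]
      norm_num; exact hR
    · calc 48 * (M * lam d ^ n) ≤ (768 * M) * lam d ^ n := by nlinarith [mul_nonneg hM0.le hlamn]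
        _ ≤ K * (K * Real.log d ^ 2) ^ n := mul_le_mul hKM hlam hlamn (by linarith)
  · rw [exterior_coeff hβ hψ hb m]
    set r : ℝ := (1 / 16 : ℝ) ^ (((d ^ n : ℕ) : ℝ)⁻¹) with hrd
    have hr : r ^ (d ^ n) = 1 / 16 := Real.rpow_inv_natCast_pow (by norm_num) hN
    have hr0 : 0 < r := by positivity
    have hr1 : r < 1 := by
      rw [← pow_lt_pow_iff_left₀ hr0.le (by norm_num) hN, hr, one_pow]
      norm_num
    have h1 := coef_le hβ hr0 hr1 (hmean r hr0.le hr.le) m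
    have h2 : 1 / 16 ≤ r ^ (m + 1) := by
      rw [← hr]
      exact pow_le_pow_of_le_one hr0.le hr1.le hm
    have h3 : 0 ≤ (m : ℝ) * ‖tc β (m + 1)‖ := by positivity
    have h4 : (m : ℝ) * ‖tc β (m + 1)‖ * (1 / 16) ≤
        (m : ℝ) * ‖tc β (m + 1)‖ * r ^ (m + 1) := mul_le_mul_of_nonneg_left h2 h3
    have h5 : 0 ≤ (m : ℝ) * ‖tc β (m + 1)‖ * r ^ (m + 1) := by positivity
    calc (m : ℝ) * ‖tc β (m + 1)‖ ≤ 768 * (M * lam d ^ n) := by nlinarith
      _ = (768 * M) * lam d ^ n := by ring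
      _ ≤ K * (K * Real.log d ^ 2) ^ n := mul_le_mul hKM hlam hlamn (by linarith)

end Pool.Agent.H32MB
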