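import Mathlib
import Pool.Agent.H32MB.Coef3

set_option autoImplicit false

open Complex Set Topology Filter Metric Asymptotics MeasureTheory N62a1eb23

namespace Pool.Agent.H32MB

open Pool.Agent.H712R2 Pool.Agent.H713R2 Pool.Agent.H713R2.AR

/-- Choosing the level. -/
theorem choose_level {d : ℕ} (hd : 8 ≤ d) {L x : ℝ} (hL : 1 ≤ L) (hx : 1 < x) :
    ∃ n : ℕ, 1 ≤ n ∧ x ≤ (d : ℝ) ^ n ∧ L ^ n ≤ L * x ^ (Real.log L / Real.log d) := by
  have hlogd : 0 < Real.log d := Real.log_pos (by exact_mod_cast (show 1 < d by omega))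
  have hd0 : (0 : ℝ) < d := by exact_mod_cast (show 0 < d by omega)
  have hx0 : 0 < x := by linarith
  have hlogx : 0 < Real.log x := Real.log_pos hx
  have hq : 0 < Real.log x / Real.log d := by positivity
  refine ⟨⌈Real.log x / Real.log d⌉₊, Nat.one_le_ceil_iff.mpr hq, ?_, ?_⟩
  · have h1 := Nat.le_ceil (Real.log x / Real.log d)
    rw [div_le_iff₀ hlogd, ← Real.log_pow] at h1
    exact (Real.log_le_log_iff hx0 (by positivity)).mp h1
  · have h1 : (⌈Real.log x / Real.log d⌉₊ : ℝ) ≤ Real.log x / Real.log d + 1 :=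
      (Nat.ceil_lt_add_one hq.le).le
    have hL0 : 0 < L := by linarith
    calc L ^ ⌈Real.log x / Real.log d⌉₊ = L ^ ((⌈Real.log x / Real.log d⌉₊ : ℕ) : ℝ) :=
          (Real.rpow_natCast _ _).symm
      _ ≤ L ^ (Real.log x / Real.log d + 1) := Real.rpow_le_rpow_of_exponent_le hL h1
      _ = L * x ^ (Real.log L / Real.log d) := by
          rw [Real.rpow_add hL0, Real.rpow_one, mul_comm, Real.rpow_def_of_pos hL0,
            Real.rpow_def_of_pos hx0]
          congr 2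
          ring

/-- The explicit bounds. -/
theorem explicit_bounds : ∃ K : ℝ, 1 ≤ K ∧ ∀ d : ℕ, 8 ≤ d → ∀ ψ : ℂ → ℂ,
    IsExteriorMap (multibrotSet d) ψ →
      (∀ R : ℝ, 1 < R → R ≤ 2 →
        ∫ θ in (-Real.pi)..Real.pi, R * ‖deriv ψ (circleMap 0 R θ)‖ ≤
          K * (K * Real.log d ^ 2) *
            (6 / (R - 1)) ^ (Real.log (K * Real.log d ^ 2) / Real.log d)) ∧
      (∀ b : ℕ → ℂ, HasLaurent ψ b → ∀ m : ℕ, 1 ≤ m →
        (m : ℝ) * ‖b m‖ ≤ K * (K * Real.log d ^ 2) *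
            ((m : ℝ) + 1) ^ (Real.log (K * Real.log d ^ 2) / Real.log d)) := by
  obtain ⟨K0, hK0, h0⟩ := main_bounds
  refine ⟨2 * K0, by linarith, fun d hd ψ hψ => ?_⟩
  have hlog2 := log_ge hd
  set L0 : ℝ := K0 * Real.log d ^ 2 with hL0
  set L : ℝ := 2 * K0 * Real.log d ^ 2 with hL
  have hL1 : 1 ≤ L := by
    have : (4 : ℝ) ≤ Real.log d ^ 2 := by nlinarith
    rw [hL]; nlinarith
  have hL00 : 0 ≤ L0 := by rw [hL0]; positivity
  have hLL : L0 ≤ L := by
    have : (0 : ℝ) ≤ K0 * Real.log d ^ 2 := by positivity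
    rw [hL0, hL]; nlinarith
  refine ⟨fun R hR1 hR2 => ?_, fun b hb m hm => ?_⟩
  · have hR0 : 0 < R := by linarith
    have hRm : 0 < R - 1 := by linarith
    obtain ⟨n, hn1, hn2, hn3⟩ := choose_level hd hL1 (x := 6 / (R - 1)) (by
      rw [lt_div_iff₀ hRm]; linarith)
    have h1 : 16 ≤ R ^ (d ^ n) := by
      have h2 : (R - 1) / 2 ≤ Real.log R := by
        have h3 := Real.one_sub_inv_le_log_of_pos hR0
        have h4 : (R - 1) / 2 ≤ 1 - R⁻¹ := by
          rw [show 1 - R⁻¹ = (R - 1) / R by field_simp]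
          exact div_le_div_of_nonneg_left hRm.le hR0 hR2
        linarith
      have h3 : (6 : ℝ) ≤ (d : ℝ) ^ n * (R - 1) := by
        rwa [div_le_iff₀ hRm] at hn2
      have h4 : Real.log 16 ≤ Real.log (R ^ (d ^ n)) := by
        rw [Real.log_pow]
        push_cast
        have h5 : Real.log 16 = 4 * Real.log 2 := by
          rw [show (16 : ℝ) = 2 ^ 4 by norm_num, Real.log_pow]; norm_num
        have h6 := Real.log_two_lt_d9
        have h7 : (d : ℝ) ^ n * ((R - 1) / 2) ≤ (d : ℝ) ^ n * Real.log R := by gcongr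
        rw [h5]
        linarith
      exact (Real.log_le_log_iff (by norm_num) (by positivity)).mp h4
    have h2 := (h0 d hd ψ hψ n hn1).1 R hR0 h1
    rw [intervalIntegral.integral_const_mul]
    have h3 : L0 ^ n ≤ L ^ n := pow_le_pow_left₀ hL00 hLL n
    have h4 : 0 ≤ K0 * L0 ^ n := by positivity
    calc R * ∫ θ in (-Real.pi)..Real.pi, ‖deriv ψ (circleMap 0 R θ)‖
        ≤ 2 * (K0 * L0 ^ n) := by
          apply mul_le_mul hR2 h2 _ (by norm_num)
          exact intervalIntegral.integral_nonneg (by linarith [Real.pi_pos])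
            fun θ _ => norm_nonneg _
      _ ≤ 2 * (K0 * L ^ n) := by gcongr
      _ = 2 * K0 * L ^ n := by ring
      _ ≤ 2 * K0 * (L * (6 / (R - 1)) ^ (Real.log L / Real.log d)) := by gcongr
      _ = _ := by ring
  · obtain ⟨n, hn1, hn2, hn3⟩ := choose_level hd hL1 (x := (m : ℝ) + 1) (by
      have : (1 : ℝ) ≤ m := by exact_mod_cast hm
      linarith)
    have h1 : m + 1 ≤ d ^ n := by exact_mod_cast hn2
    have h2 := (h0 d hd ψ hψ n hn1).2 b hb m h1
    have h3 : L0 ^ n ≤ L ^ n := pow_le_pow_left₀ hL00 hLL n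
    have h4 : 0 ≤ K0 * L0 ^ n := by positivity
    calc (m : ℝ) * ‖b m‖ ≤ K0 * L0 ^ n := h2
      _ ≤ 2 * (K0 * L0 ^ n) := by linarith
      _ ≤ 2 * (K0 * L ^ n) := by gcongr
      _ = 2 * K0 * L ^ n := by ring
      _ ≤ 2 * K0 * (L * ((m : ℝ) + 1) ^ (Real.log L / Real.log d)) := by gcongr
      _ = _ := by ring

theorem exponent_tendsto {K : ℝ} (hK : 1 ≤ K) :
    Tendsto (fun d : ℕ => Real.log (K * Real.log d ^ 2) / Real.log d) atTop (𝓝 0) := by
  have h1 : Tendsto (fun d : ℕ => Real.log (d : ℝ)) atTop atTop :=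
    Real.tendsto_log_atTop.comp tendsto_natCast_atTop_atTop
  have h2 : Tendsto (fun x : ℝ => Real.log x / x) atTop (𝓝 0) :=
    Real.isLittleO_log_id_atTop.tendsto_div_nhds_zero
  have h3 := h2.comp h1
  have h4 : Tendsto (fun d : ℕ => Real.log K / Real.log (d : ℝ)) atTop (𝓝 0) :=
    h1.const_div_atTop _
  have h5 := h4.add (h3.const_mul 2)
  rw [mul_zero, add_zero] at h5
  refine h5.congr' ?_
  filter_upwards [h1.eventually_gt_atTop 0] with d hd
  simp only [Function.comp]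
  rw [Real.log_mul (by positivity) (by positivity), Real.log_pow]
  push_cast
  ring

/-- The asymptotic form. -/
theorem asymptotic_bounds {ε : ℝ} (hε : 0 < ε) : ∃ d₀ : ℕ, ∀ d : ℕ, d₀ ≤ d → ∃ C : ℝ,
    ∀ ψ : ℂ → ℂ, IsExteriorMap (multibrotSet d) ψ →
      (∀ R : ℝ, 1 < R → R ≤ 2 →
        ∫ θ in (-Real.pi)..Real.pi, R * ‖deriv ψ (circleMap 0 R θ)‖ ≤ C * (R - 1) ^ (-ε)) ∧
      (∀ b : ℕ → ℂ, HasLaurent ψ b → ∀ m : ℕ, 1 ≤ m → ‖b m‖ ≤ C * (m : ℝ) ^ (-1 + ε)) := by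
  obtain ⟨K, hK, h0⟩ := explicit_bounds
  obtain ⟨d₀, hd₀⟩ := eventually_atTop.mp ((exponent_tendsto hK).eventually (gt_mem_nhds hε))
  refine ⟨max 8 d₀, fun d hd => ?_⟩
  have hd8 : 8 ≤ d := (le_max_left _ _).trans hd
  have hs := hd₀ d ((le_max_right _ _).trans hd)
  set s : ℝ := Real.log (K * Real.log d ^ 2) / Real.log d with hsdef
  have hlog2 := log_ge hd8
  have hLp : 1 ≤ K * Real.log d ^ 2 := by
    have : (4 : ℝ) ≤ Real.log d ^ 2 := by nlinarith
    nlinarith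
  refine ⟨K * (K * Real.log d ^ 2) * 6 ^ ε, fun ψ hψ => ⟨fun R hR1 hR2 => ?_, fun b hb m hm => ?_⟩⟩
  · refine ((h0 d hd8 ψ hψ).1 R hR1 hR2).trans ?_
    have hRm : 0 < R - 1 := by linarith
    rw [← hsdef]
    have h1 : (6 / (R - 1)) ^ s ≤ (6 / (R - 1)) ^ ε := by
      apply Real.rpow_le_rpow_of_exponent_le _ hs.le
      rw [le_div_iff₀ hRm]; linarith
    have h2 : (6 / (R - 1)) ^ ε = 6 ^ ε * (R - 1) ^ (-ε) := by
      rw [Real.div_rpow (by norm_num) hRm.le, Real.rpow_neg hRm.le, div_eq_mul_inv]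
    rw [h2] at h1
    calc K * (K * Real.log d ^ 2) * (6 / (R - 1)) ^ s
        ≤ K * (K * Real.log d ^ 2) * (6 ^ ε * (R - 1) ^ (-ε)) := by gcongr
      _ = _ := by ring
  · have hm1 : (1 : ℝ) ≤ m := by exact_mod_cast hm
    have hm0 : (0 : ℝ) < m := by linarith
    have h1 := (h0 d hd8 ψ hψ).2 b hb m hm
    rw [← hsdef] at h1
    have h2 : ((m : ℝ) + 1) ^ s ≤ ((m : ℝ) + 1) ^ ε :=
      Real.rpow_le_rpow_of_exponent_le (by linarith) hs.le
    have h3 : ((m : ℝ) + 1) ^ ε ≤ (6 * m) ^ ε :=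
      Real.rpow_le_rpow (by linarith) (by linarith) hε.le
    rw [Real.mul_rpow (by norm_num) hm0.le] at h3
    have h4 : (m : ℝ) ^ (-1 + ε) = (m : ℝ) ^ ε / m := by
      rw [Real.rpow_add hm0, Real.rpow_neg_one]; ring
    rw [h4, mul_div_assoc', le_div_iff₀ hm0, mul_comm ‖b m‖]
    refine h1.trans ?_
    calc K * (K * Real.log d ^ 2) * ((m : ℝ) + 1) ^ s
        ≤ K * (K * Real.log d ^ 2) * (6 ^ ε * (m : ℝ) ^ ε) := by
          gcongr
          exact h2.trans h3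
      _ = _ := by ring

end Pool.Agent.H32MB
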